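import Mathlib

set_option linter.style.longLine false
set_option linter.unusedVariables false
set_option linter.unusedSectionVars false

open MeasureTheory Set Filter Topology

namespace Pool.Agent.Lib.MP_5d8c24_an

variable {X Y : Type*} [MeasurableSpace X] [MeasurableSpace Y]

lemma not_countable_of_measure [StandardBorelSpace X] (μ : Measure X) [NullSingletonClass μ] {S : Set X}
    (hμ : μ S ≠ 0) : ¬ S.Countable := fun h => hμ (h.measure_zero μ)

lemma exists_null_uncountable [StandardBorelSpace X] (μ : Measure X) [IsFiniteMeasure μ] [NullSingletonClass μ] 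
    {S : Set X} (hS : MeasurableSet S) (hμ : μ S ≠ 0) : 
    ∃ W ⊆ S, MeasurableSet W ∧ μ W = 0 ∧ ¬ W.Countable := by
  have hSc : ¬ Countable S := fun h => not_countable_of_measure μ hμ (Set.countable_coe_iff.mp h)
  have : StandardBorelSpace S := hS.standardBorel
  have hR : ¬ Countable (ℝ × ℝ) := by
    rw [not_countable_iff]; infer_instance
  let g : S ≃ᵐ ℝ × ℝ := PolishSpace.measurableEquivOfNotCountable hSc hR
  let W : ℝ → Set X := fun t => Subtype.val '' (g ⁻¹' ({t} ×ˢ univ))
  have hWm : ∀ t, MeasurableSet (W t) := fun t => 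
    hS.subtype_image (g.measurable ((measurableSet_singleton t).prod MeasurableSet.univ))
  have hWd : Pairwise (Function.onFun Disjoint W) := by
    intro t s hts
    rw [Function.onFun, Set.disjoint_left]
    rintro x ⟨y, hy, rfl⟩ ⟨z, hz, hyz⟩
    have : z = y := Subtype.ext hyz
    subst this
    simp only [mem_preimage, mem_prod, mem_singleton_iff, mem_univ, and_true] at hy hz
    exact hts (hy.symm.trans hz)
  have hc := Measure.countable_meas_pos_of_disjoint_iUnion (μ := μ) hWm hWd
  have : ∃ t, t ∉ {t | 0 < μ (W t)} := by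
    by_contra hcon
    push Not at hcon
    have huniv : {t | 0 < μ (W t)} = univ := eq_univ_of_forall hcon
    rw [huniv] at hc
    exact Set.not_countable_univ hc
  obtain ⟨t, ht⟩ := this
  refine ⟨W t, ?_, hWm t, ?_, ?_⟩
  · rintro x ⟨y, _, rfl⟩; exact y.2
  · simpa using ht
  · intro hcount
    have hinj : Function.Injective (fun u : ℝ => ((g.symm (t, u) : S) : X)) := by
      intro u v huv
      have h1 := g.symm.injective (Subtype.ext huv)
      simpa using h1
    have hsub : range (fun u : ℝ => ((g.symm (t, u) : S) : X)) ⊆ W t := by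
      rintro _ ⟨u, rfl⟩
      exact ⟨g.symm (t, u), by simp, rfl⟩
    have := hcount.mono hsub
    have h2 : (univ : Set ℝ).Countable := by
      rw [← image_univ] at this
      exact (Set.countable_of_injective_of_countable_image hinj.injOn this)
    exact Set.not_countable_univ h2

/-- gluing -/
lemma exists_iso_of_injOn [StandardBorelSpace X] [StandardBorelSpace Y] (μ : Measure X) (ν : Measure Y)
    [IsFiniteMeasure μ] [NullSingletonClass μ] (hμ : μ ≠ 0) {f : X → Y} (hf : Measurable f) (hfν : μ.map f = ν)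
    {X0 : Set X} (hX0 : MeasurableSet X0) (hnull : μ X0ᶜ = 0) (hinj : InjOn f X0) : 
    ∃ e : X ≃ᵐ Y, MeasurePreserving e μ ν := by
  classical
  have hpos : μ X0 ≠ 0 := by
    intro h
    apply hμ
    rw [← Measure.measure_univ_eq_zero, ← union_compl_self X0]
    exact measure_union_null h hnull
  obtain ⟨W, hWX, hWm, hW0, hWc⟩ := exists_null_uncountable μ hX0 hpos
  set X1 := X0 \ W with hX1
  have hX1m : MeasurableSet X1 := hX0.diff hWm
  have hinj1 : InjOn f X1 := hinj.mono sdiff_subset
  have hX1null : μ X1ᶜ = 0 := by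
    have : X1ᶜ ⊆ X0ᶜ ∪ W := by
      intro x hx
      by_cases h : x ∈ X0
      · right
        by_contra h2
        exact hx ⟨h, h2⟩
      · left; exact h
    exact measure_mono_null this (measure_union_null hnull hW0)
  set Y1 := f '' X1 with hY1
  have hY1m : MeasurableSet Y1 := hX1m.image_of_measurable_injOn hf hinj1
  have hXc : ¬ Countable (X1ᶜ : Set X) := by
    intro h
    have h1 := Set.countable_coe_iff.mp h
    have h2 : W ⊆ X1ᶜ := fun x hx hx2 => hx2.2 hx
    exact hWc (h1.mono h2)
  have hYc : ¬ Countable (Y1ᶜ : Set Y) := by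
    intro h
    have h1 := Set.countable_coe_iff.mp h
    have h2 : f '' W ⊆ Y1ᶜ := by
      rintro _ ⟨w, hw, rfl⟩ ⟨x, hx, hxw⟩
      have := hinj hx.1 (hWX hw) hxw
      rw [this] at hx
      exact hx.2 hw
    have h3 := h1.mono h2
    exact hWc (Set.countable_of_injective_of_countable_image (hinj.mono hWX) h3)
  have := hX1m.standardBorel
  have := hX1m.compl.standardBorel
  have := hY1m.standardBorel
  have := hY1m.compl.standardBorel
  let f1 : X1 → Y := fun x => f x
  have hf1 : MeasurableEmbedding f1 := 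
    Measurable.measurableEmbedding (hf.comp measurable_subtype_coe) (fun x y hxy => Subtype.ext (hinj1 x.2 y.2 hxy))
  have hrange : range f1 = Y1 := by
    ext y
    constructor
    · rintro ⟨x, rfl⟩; exact ⟨x, x.2, rfl⟩
    · rintro ⟨x, hx, rfl⟩; exact ⟨⟨x, hx⟩, rfl⟩
  let cst : range f1 ≃ᵐ Y1 := MeasurableEquiv.cast (by rw [hrange]) (by rw [hrange])
  have hcst : ∀ y : range f1, ((cst y : Y1) : Y) = y := by
    have h2 : ∀ (S T : Set Y) (h : S = T) (y : S), 
        (((MeasurableEquiv.cast (α := S) (β := T) (by rw [h]) (by rw [h])) y : T) : Y) = y := by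
      intro S T h y
      subst h
      rfl
    exact fun y => h2 _ _ hrange y
  let e1 : X1 ≃ᵐ Y1 := hf1.equivRange.trans cst
  have he1 : ∀ x : X1, ((e1 x : Y1) : Y) = f x := by
    intro x
    have h1 : hf1.equivRange x = ⟨f1 x, mem_range_self x⟩ := MeasurableEmbedding.equivRange_apply hf1 x
    change ((cst (hf1.equivRange x) : Y1) : Y) = f x
    rw [hcst, h1]
  let e2 : (X1ᶜ : Set X) ≃ᵐ (Y1ᶜ : Set Y) := PolishSpace.measurableEquivOfNotCountable hXc hYc
  let e : X ≃ᵐ Y := (MeasurableEquiv.sumCompl hX1m).symm.trans 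
    ((MeasurableEquiv.sumCongr e1 e2).trans (MeasurableEquiv.sumCompl hY1m))
  have he : ∀ x ∈ X1, e x = f x := by
    intro x hx
    have h1 : (MeasurableEquiv.sumCompl hX1m).symm x = Sum.inl ⟨x, hx⟩ := by
      rw [MeasurableEquiv.symm_apply_eq]
      rfl
    change (MeasurableEquiv.sumCompl hY1m) ((MeasurableEquiv.sumCongr e1 e2) ((MeasurableEquiv.sumCompl hX1m).symm x)) = f x
    rw [h1]
    exact he1 ⟨x, hx⟩
  refine ⟨e, e.measurable, ?_⟩
  rw [← hfν]
  apply Measure.map_congr
  have : X1 ∈ ae μ := hX1null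
  filter_upwards [this] with x hx using he x hx



section cdf

variable (μ : Measure ℝ) [IsFiniteMeasure μ] [NullSingletonClass μ]

/-- distribution function -/
noncomputable def FF (x : ℝ) : ℝ := μ.real (Iic x)

lemma FF_mono : Monotone (FF μ) := fun x y h => measureReal_mono (Iic_subset_Iic.mpr h)

lemma FF_diff {x y : ℝ} (h : x ≤ y) : FF μ y - FF μ x = μ.real (Ioc x y) := by
  unfold FF
  rw [← Iic_union_Ioc_eq_Iic h, measureReal_union (by
    rw [Set.disjoint_left]; intro z hz hz2; exact absurd hz2.1 (not_lt.mpr hz)) measurableSet_Ioc]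
  ring

lemma FF_cont : Continuous (FF μ) := by
  rw [continuous_iff_continuousAt]
  intro x
  rw [Metric.continuousAt_iff']
  intro ε hε
  have h1 := tendsto_measure_Icc_nhdsWithin_right' μ x
  rw [measure_singleton] at h1
  have h2 : ∀ᶠ δ in 𝓝[>] (0:ℝ), μ (Icc (x - δ) (x + δ)) < ENNReal.ofReal ε := 
    h1.eventually_lt_const (ENNReal.ofReal_pos.mpr hε)
  obtain ⟨δ, hδ, hδ0⟩ := (h2.and self_mem_nhdsWithin).exists
  have hδ0' : 0 < δ := hδ0
  have h3 : μ.real (Icc (x - δ) (x + δ)) < ε := by
    rw [Measure.real]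
    exact (ENNReal.lt_ofReal_iff_toReal_lt (measure_ne_top _ _)).mp hδ
  filter_upwards [Icc_mem_nhds (show x - δ < x by linarith) (show x < x + δ by linarith)] with y hy
  rw [Real.dist_eq]
  rcases le_total x y with h | h
  · rw [FF_diff μ h, abs_of_nonneg measureReal_nonneg]
    refine lt_of_le_of_lt (measureReal_mono ?_ (measure_ne_top _ _)) h3
    intro z hz
    exact ⟨by linarith [hz.1], by linarith [hz.2, hy.2]⟩
  · rw [abs_sub_comm, FF_diff μ h, abs_of_nonneg measureReal_nonneg]
    refine lt_of_le_of_lt (measureReal_mono ?_ (measure_ne_top _ _)) h3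
    intro z hz
    exact ⟨by linarith [hz.1, hy.1], by linarith [hz.2]⟩

lemma FF_nonneg (x : ℝ) : 0 ≤ FF μ x := measureReal_nonneg
lemma FF_le (x : ℝ) : FF μ x ≤ μ.real univ := measureReal_mono (subset_univ _)

lemma FF_tendsto_top : Tendsto (FF μ) atTop (𝓝 (μ.real univ)) := by
  have h := tendsto_measure_Iic_atTop μ
  exact (ENNReal.tendsto_toReal (measure_ne_top _ _)).comp h

lemma FF_tendsto_bot : Tendsto (FF μ) atBot (𝓝 0) := by
  have h := tendsto_measure_Ici_atBot μ
  have h2 := (ENNReal.tendsto_toReal (measure_ne_top μ univ)).comp h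
  have h3 : Tendsto (fun x => μ.real univ - (ENNReal.toReal ∘ fun x => μ (Ici x)) x) atBot (𝓝 (μ.real univ - (μ univ).toReal)) := 
    tendsto_const_nhds.sub h2
  have h4 : μ.real univ - (μ univ).toReal = 0 := by simp [Measure.real]
  rw [h4] at h3
  apply h3.congr
  intro x
  have h5 : FF μ x = μ.real (Iio x) := by
    unfold FF
    exact measureReal_congr Iio_ae_eq_Iic.symm
  rw [h5, ← compl_Ici, measureReal_compl measurableSet_Ici]
  rfl

lemma FF_map : μ.map (FF μ) = volume.restrict (Icc 0 (μ.real univ)) := by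
  have hmeas : Measurable (FF μ) := (FF_cont μ).measurable
  apply Measure.ext_of_Iic
  intro t
  rw [Measure.map_apply hmeas measurableSet_Iic, Measure.restrict_apply measurableSet_Iic]
  set m := μ.real univ with hm
  rcases lt_or_ge t 0 with ht | ht
  · have h1 : FF μ ⁻¹' Iic t = ∅ := by
      ext x
      simp only [mem_preimage, mem_Iic, mem_empty_iff_false, iff_false, not_le]
      exact lt_of_lt_of_le ht (FF_nonneg μ x)
    have h2 : Iic t ∩ Icc 0 m = ∅ := by
      ext x
      simp only [mem_inter_iff, mem_Iic, mem_Icc, mem_empty_iff_false, iff_false]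
      rintro ⟨h3, h4, _⟩
      linarith
    rw [h1, h2]; simp
  rcases le_or_gt m t with htm | htm
  · have h1 : FF μ ⁻¹' Iic t = univ := by
      ext x
      simp only [mem_preimage, mem_Iic, mem_univ, iff_true]
      exact (FF_le μ x).trans htm
    have h2 : Iic t ∩ Icc 0 m = Icc 0 m := by
      ext x
      simp only [mem_inter_iff, mem_Iic, mem_Icc]
      constructor
      · rintro ⟨_, h⟩; exact h
      · rintro ⟨h3, h4⟩; exact ⟨h4.trans htm, h3, h4⟩
    rw [h1, h2, Real.volume_Icc, sub_zero, hm, ofReal_measureReal]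
  · have h2 : Iic t ∩ Icc 0 m = Icc 0 t := by
      ext x
      simp only [mem_inter_iff, mem_Iic, mem_Icc]
      constructor
      · rintro ⟨h3, h4, h5⟩; exact ⟨h4, h3⟩
      · rintro ⟨h3, h4⟩; exact ⟨h4, h3, h4.trans htm.le⟩
    rw [h2, Real.volume_Icc, sub_zero]
    by_cases hne : (FF μ ⁻¹' Iic t).Nonempty
    · have hbdd : BddAbove (FF μ ⁻¹' Iic t) := by
        obtain ⟨y, hy⟩ := ((FF_tendsto_top μ).eventually_const_lt htm).exists
        refine ⟨y, ?_⟩
        intro x hx
        by_contra hxy
        push Not at hxy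
        have := FF_mono μ hxy.le
        have hx' : FF μ x ≤ t := hx
        linarith
      have hcl : IsClosed (FF μ ⁻¹' Iic t) := isClosed_Iic.preimage (FF_cont μ)
      have hs := hcl.csSup_mem hne hbdd
      set s := sSup (FF μ ⁻¹' Iic t) with hs_def
      have heq : FF μ ⁻¹' Iic t = Iic s := by
        ext x
        constructor
        · intro hx; exact le_csSup hbdd hx
        · intro hx
          exact (FF_mono μ hx).trans hs
      have hFs : FF μ s = t := by
        apply le_antisymm hs
        by_contra hlt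
        push Not at hlt
        have h3 : ∀ᶠ y in 𝓝[>] s, FF μ y < t := 
          ((FF_cont μ).continuousAt.eventually_lt_const hlt).filter_mono nhdsWithin_le_nhds
        obtain ⟨y, hy1, hy2⟩ := (h3.and self_mem_nhdsWithin).exists
        have : y ≤ s := le_csSup hbdd hy1.le
        exact absurd hy2 (not_lt.mpr this)
      rw [heq, ← hFs, FF, ofReal_measureReal]
    · rw [not_nonempty_iff_eq_empty] at hne
      have ht0 : t = 0 := by
        apply le_antisymm _ ht
        by_contra hlt
        push Not at hlt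
        obtain ⟨y, hy⟩ := ((FF_tendsto_bot μ).eventually_lt_const hlt).exists
        have : y ∈ FF μ ⁻¹' Iic t := hy.le
        rw [hne] at this
        exact this
      rw [hne, ht0]; simp

lemma FF_inj : ∃ X0 : Set ℝ, MeasurableSet X0 ∧ μ X0ᶜ = 0 ∧ InjOn (FF μ) X0 := by
  have hmeas : Measurable (FF μ) := (FF_cont μ).measurable
  refine ⟨(⋃ q : ℚ, FF μ ⁻¹' {FF μ q})ᶜ, ?_, ?_, ?_⟩
  · exact (MeasurableSet.iUnion fun q => hmeas (measurableSet_singleton _)).compl
  · rw [compl_compl, measure_iUnion_null_iff]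
    intro q
    rw [← Measure.map_apply hmeas (measurableSet_singleton _), FF_map, Measure.restrict_apply (measurableSet_singleton _)]
    apply measure_mono_null inter_subset_left
    simp
  · have key : ∀ x y : ℝ, x < y → y ∈ (⋃ q : ℚ, FF μ ⁻¹' {FF μ q})ᶜ → FF μ x ≠ FF μ y := by
      intro x y hxy hy h
      obtain ⟨q, hq1, hq2⟩ := exists_rat_btwn hxy
      apply hy
      rw [mem_iUnion]
      refine ⟨q, ?_⟩
      simp only [mem_preimage, mem_singleton_iff]
      exact le_antisymm (h ▸ FF_mono μ hq1.le) (FF_mono μ hq2.le)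
    intro x hx y hy h
    rcases lt_trichotomy x y with h1 | h1 | h1
    · exact absurd h (key x y h1 hy)
    · exact h1
    · exact absurd h.symm (key y x h1 hx)

end cdf

lemma exists_iso_model [StandardBorelSpace X] (μ : Measure X) [IsFiniteMeasure μ] [NullSingletonClass μ] (hμ : μ ≠ 0) :
    ∃ e : X ≃ᵐ ℝ, MeasurePreserving e μ (volume.restrict (Icc 0 (μ.real univ))) := by
  have hXc : ¬ Countable X := by
    intro h
    apply hμ
    rw [← Measure.measure_univ_eq_zero]
    exact (Set.countable_univ (α := X)).measure_zero μ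
  have hR : ¬ Countable ℝ := by
    rw [not_countable_iff]; infer_instance
  let e0 : X ≃ᵐ ℝ := PolishSpace.measurableEquivOfNotCountable hXc hR
  set μ' := μ.map e0 with hμ'
  have : IsFiniteMeasure μ' := inferInstance
  have : NullSingletonClass μ' := by
    constructor
    intro x
    rw [hμ', e0.map_apply]
    have : e0 ⁻¹' {x} = {e0.symm x} := by
      ext y
      simp only [mem_preimage, mem_singleton_iff]
      exact ⟨fun h => by rw [← h]; simp, fun h => by rw [h]; simp⟩
    rw [this, measure_singleton]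
  have hmass : μ'.real univ = μ.real univ := by
    simp only [Measure.real, hμ', e0.map_apply, preimage_univ]
  have hμ'0 : μ' ≠ 0 := by
    intro h
    apply hμ
    rw [← Measure.measure_univ_eq_zero] at h ⊢
    rw [hμ', e0.map_apply, preimage_univ] at h
    exact h
  obtain ⟨X0, h1, h2, h3⟩ := FF_inj μ'
  obtain ⟨e, he⟩ := exists_iso_of_injOn μ' _ hμ'0 (FF_cont μ').measurable (FF_map μ') h1 h2 h3
  refine ⟨e0.trans e, ?_⟩
  rw [hmass] at he
  have h4 : MeasurePreserving e0 μ μ' := ⟨e0.measurable, rfl⟩
  exact he.comp h4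

/-- isomorphism theorem for atomless standard spaces -/
theorem exists_iso [StandardBorelSpace X] [StandardBorelSpace Y] (μ : Measure X) (ν : Measure Y)
    [IsFiniteMeasure μ] [NullSingletonClass μ] [IsFiniteMeasure ν] [NullSingletonClass ν] 
    (hμ : μ univ ≠ 0) (hμν : μ univ = ν univ) : ∃ e : X ≃ᵐ Y, MeasurePreserving e μ ν := by
  have h1 : μ ≠ 0 := by
    intro h; apply hμ; rw [h]; simp
  have h2 : ν ≠ 0 := by
    intro h; apply hμ; rw [hμν, h]; simp
  obtain ⟨e, he⟩ := exists_iso_model μ h1
  obtain ⟨e', he'⟩ := exists_iso_model ν h2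
  have : μ.real univ = ν.real univ := by simp only [Measure.real, hμν]
  rw [this] at he
  exact ⟨e.trans e'.symm, he'.symm.comp he⟩

end Pool.Agent.Lib.MP_5d8c24_an
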