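import Mathlib
import Pool.Agent.Lib.MP_5d8c24_an.Iso

set_option linter.style.longLine false
set_option linter.unusedVariables false
set_option linter.unusedSectionVars false

open MeasureTheory Set Filter Topology
open scoped ENNReal

namespace Pool.Agent.Lib.MP_5d8c24_an

variable {X : Type*} [MeasurableSpace X]

/-- uniform function to a finite set -/
structure Unif (μ : Measure X) {Λ : Type*} [Fintype Λ] (c : X → Λ) : Prop where
  meas : ∀ a, MeasurableSet (c ⁻¹' {a})
  unif : ∀ a, μ (c ⁻¹' {a}) = (Fintype.card Λ : ℝ≥0∞)⁻¹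

variable {μ : Measure X} {Λ : Type*} [Fintype Λ] {c : X → Λ}

lemma Unif.measurableSet (h : Unif μ c) (E : Set Λ) : MeasurableSet (c ⁻¹' E) := by
  have : c ⁻¹' E = ⋃ a ∈ E, c ⁻¹' {a} := by
    ext x; simp
  rw [this]
  exact MeasurableSet.biUnion (Set.to_countable E) (fun a _ => h.meas a)

lemma measure_split (μ : Measure X) (hc : ∀ a, MeasurableSet (c ⁻¹' {a})) {S : Set X} (hS : MeasurableSet S) : 
    μ S = ∑ a, μ (S ∩ c ⁻¹' {a}) := by
  have h1 : S = ⋃ a ∈ (Finset.univ : Finset Λ), (S ∩ c ⁻¹' {a}) := by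
    ext x; simp
  conv_lhs => rw [h1]
  rw [measure_biUnion_finset]
  · intro a _ b _ hab
    simp only [Function.onFun]
    rw [Set.disjoint_left]
    rintro x ⟨_, hx⟩ ⟨_, hy⟩
    exact hab (hx.symm.trans hy)
  · intro a _
    exact hS.inter (hc a)

open Classical in
lemma Unif.measure (h : Unif μ c) (E : Finset Λ) : μ (c ⁻¹' E) = E.card * (Fintype.card Λ : ℝ≥0∞)⁻¹ := by
  rw [measure_split (c := c) μ h.meas (h.measurableSet _)]
  have : ∀ a, μ (c ⁻¹' E ∩ c ⁻¹' {a}) = if a ∈ E then (Fintype.card Λ : ℝ≥0∞)⁻¹ else 0 := by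
    intro a
    split_ifs with ha
    · have : c ⁻¹' (E : Set Λ) ∩ c ⁻¹' {a} = c ⁻¹' {a} := by
        ext x; simp only [mem_inter_iff, mem_preimage, mem_singleton_iff, and_iff_right_iff_imp]
        rintro rfl; exact ha
      rw [this, h.unif]
    · have : c ⁻¹' (E : Set Λ) ∩ c ⁻¹' {a} = ∅ := by
        ext x; simp only [mem_inter_iff, mem_preimage, mem_singleton_iff, mem_empty_iff_false, iff_false, not_and]
        rintro hx rfl; exact ha hx
      rw [this, measure_empty]
  simp only [this]
  rw [Finset.sum_ite_mem, Finset.univ_inter, Finset.sum_const, nsmul_eq_mul]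

open Classical in
lemma Unif.measureReal (h : Unif μ c) (E : Finset Λ) : μ.real (c ⁻¹' E) = E.card / Fintype.card Λ := by
  rw [Measure.real, h.measure, ENNReal.toReal_mul, ENNReal.toReal_inv, ENNReal.toReal_natCast, ENNReal.toReal_natCast]
  rfl

/-- realisation of a permutation of the values of a uniform function -/
lemma exists_realization [StandardBorelSpace X] (μ : Measure X) [IsProbabilityMeasure μ] [NullSingletonClass μ]
    [Nonempty Λ] (h : Unif μ c) (ρ : Equiv.Perm Λ) : 
    ∃ T : X ≃ᵐ X, MeasurePreserving T μ μ ∧ ∀ x, c (T x) = ρ (c x) := by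
  have key : ∀ a, ∃ e : (c ⁻¹' {a} : Set X) ≃ᵐ (c ⁻¹' {ρ a} : Set X), 
      MeasurePreserving e (μ.comap Subtype.val) (μ.comap Subtype.val) := by
    intro a
    have := (h.meas a).standardBorel
    have := (h.meas (ρ a)).standardBorel
    have hatom : ∀ b : Λ, NullSingletonClass (μ.comap (Subtype.val : (c ⁻¹' {b} : Set X) → X)) := by
      intro b
      constructor
      intro x
      rw [comap_subtype_coe_apply (h.meas b)]
      simp
    have := hatom a
    have := hatom (ρ a)
    have hmass : ∀ b : Λ, (μ.comap (Subtype.val : (c ⁻¹' {b} : Set X) → X)) univ = (Fintype.card Λ : ℝ≥0∞)⁻¹ := by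
      intro b
      rw [comap_subtype_coe_apply (h.meas b), image_univ, Subtype.range_coe, h.unif b]
    have hfin : ∀ b : Λ, IsFiniteMeasure (μ.comap (Subtype.val : (c ⁻¹' {b} : Set X) → X)) := by
      intro b
      constructor
      rw [hmass]
      simp [Fintype.card_pos]
    have := hfin a
    have := hfin (ρ a)
    apply exists_iso
    · rw [hmass]; simp
    · rw [hmass, hmass]
  choose e he using key
  let T : X → X := fun x => (e (c x) ⟨x, rfl⟩).1
  have hT : ∀ a x (hx : c x = a), T x = (e a ⟨x, hx⟩).1 := by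
    rintro a x rfl; rfl
  have hcT : ∀ x, c (T x) = ρ (c x) := fun x => (e (c x) ⟨x, rfl⟩).2
  have hpre : ∀ B : Set X, ∀ a, T ⁻¹' B ∩ c ⁻¹' {a} = Subtype.val '' (e a ⁻¹' (Subtype.val ⁻¹' B)) := by
    intro B a
    ext x
    constructor
    · rintro ⟨h1, h2⟩
      have h2' : c x = a := h2
      refine ⟨⟨x, h2'⟩, ?_, rfl⟩
      simp only [mem_preimage]
      rw [← hT a x h2']
      exact h1
    · rintro ⟨⟨y, hy⟩, h1, rfl⟩
      refine ⟨?_, hy⟩
      simp only [mem_preimage] at h1 ⊢
      rw [hT a y hy]
      exact h1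
  have hTm : Measurable T := by
    intro B hB
    have : T ⁻¹' B = ⋃ a, T ⁻¹' B ∩ c ⁻¹' {a} := by
      ext x; simp
    rw [this]
    apply MeasurableSet.iUnion
    intro a
    rw [hpre]
    exact (h.meas a).subtype_image ((e a).measurable (measurable_subtype_coe hB))
  have hinj : Function.Injective T := by
    intro x y hxy
    have h1 : c x = c y := by
      have := congrArg c hxy
      rw [hcT, hcT] at this
      exact ρ.injective this
    rw [hT (c y) x h1, hT (c y) y rfl] at hxy
    have := (e (c y)).injective (Subtype.ext hxy)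
    exact congrArg Subtype.val this
  have hsurj : Function.Surjective T := by
    intro y
    have hy : c y = ρ (ρ.symm (c y)) := by simp
    refine ⟨((e (ρ.symm (c y))).symm ⟨y, hy⟩).1, ?_⟩
    rw [hT (ρ.symm (c y)) _ ((e (ρ.symm (c y))).symm ⟨y, hy⟩).2]
    simp
  have hemb : MeasurableEmbedding T := Measurable.measurableEmbedding hTm hinj
  let E : X ≃ᵐ X := 
    { toEquiv := Equiv.ofBijective T ⟨hinj, hsurj⟩
      measurable_toFun := hTm
      measurable_invFun := by
        intro B hB
        have : (Equiv.ofBijective T ⟨hinj, hsurj⟩).symm ⁻¹' B = T '' B := by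
          ext y
          constructor
          · intro hy
            exact ⟨_, hy, Equiv.ofBijective_apply_symm_apply T _ y⟩
          · rintro ⟨x, hx, rfl⟩
            have h1 : (Equiv.ofBijective T ⟨hinj, hsurj⟩).symm (T x) = x := 
              Equiv.ofBijective_symm_apply_apply T _ x
            rw [mem_preimage, h1]
            exact hx
        change MeasurableSet ((Equiv.ofBijective T ⟨hinj, hsurj⟩).symm ⁻¹' B)
        rw [this]
        exact hemb.measurableSet_image.mpr hB }
  refine ⟨E, ⟨hTm, ?_⟩, hcT⟩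
  ext B hB
  have hET : (E : X → X) = T := rfl
  rw [hET, Measure.map_apply hTm hB]
  rw [measure_split (c := c) μ h.meas (hTm hB), measure_split (c := c) μ h.meas hB, ← Equiv.sum_comp ρ (fun a => μ (B ∩ c ⁻¹' {a}))]
  apply Finset.sum_congr rfl
  intro a _
  rw [hpre]
  have h1 := (he a).measure_preimage (s := Subtype.val ⁻¹' B) (measurable_subtype_coe hB).nullMeasurableSet
  rw [comap_subtype_coe_apply (h.meas a), comap_subtype_coe_apply (h.meas (ρ a))] at h1
  rw [h1, Subtype.image_preimage_coe, inter_comm]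

end Pool.Agent.Lib.MP_5d8c24_an
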