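import Mathlib
import Pool.Agent.Lib.MP_5d8c24_an.Real

set_option linter.style.longLine false
set_option linter.unusedVariables false
set_option linter.unusedSectionVars false

open MeasureTheory Set Filter Topology
open scoped ENNReal symmDiff

namespace Pool.Agent.Lib.MP_5d8c24_an

/-- the index of the cell of `[0,1)` -/
noncomputable def gN (n : ℕ) (y : ℝ) : Fin (n + 1) := Fin.ofNat (n + 1) ⌊((n + 1 : ℕ) : ℝ) * y⌋₊

/-- finer index -/
noncomputable def gK (n K : ℕ) [NeZero K] (y : ℝ) : Fin (n + 1) × Fin K := 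
  (gN n y, Fin.ofNat K ⌊(((n + 1) * K : ℕ) : ℝ) * y⌋₊)

lemma measurable_gN (n : ℕ) : Measurable (gN n) := by
  have h1 : Measurable (fun y : ℝ => ⌊((n + 1 : ℕ) : ℝ) * y⌋₊) := 
    Nat.measurable_floor.comp (measurable_const_mul _)
  exact (measurable_of_countable (fun m : ℕ => Fin.ofNat (n+1) m)).comp h1

lemma measurable_gK (n K : ℕ) [NeZero K] : Measurable (gK n K) := by
  have h1 : Measurable (fun y : ℝ => ⌊(((n + 1) * K : ℕ) : ℝ) * y⌋₊) := 
    Nat.measurable_floor.comp (measurable_const_mul _)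
  exact (measurable_gN n).prodMk ((measurable_of_countable (fun m : ℕ => Fin.ofNat K m)).comp h1)

lemma gN_val {n : ℕ} {y : ℝ} (hy : y ∈ Ico (0:ℝ) 1) : (gN n y).val = ⌊((n + 1 : ℕ) : ℝ) * y⌋₊ := by
  unfold gN
  rw [Fin.val_ofNat, Nat.mod_eq_of_lt]
  rw [Nat.floor_lt (by have := hy.1; positivity)]
  have h1 : (0:ℝ) < ((n+1 : ℕ) : ℝ) := by positivity
  nlinarith [hy.2]

lemma gK_iff {n K : ℕ} [NeZero K] {y : ℝ} (hy : y ∈ Ico (0:ℝ) 1) (a : Fin (n+1)) (b : Fin K) : 
    gK n K y = (a, b) ↔ ((a.val * K + b.val : ℕ) : ℝ) ≤ (((n + 1) * K : ℕ) : ℝ) * y ∧ 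
      (((n + 1) * K : ℕ) : ℝ) * y < ((a.val * K + b.val : ℕ) : ℝ) + 1 := by
  have hK : 0 < K := Nat.pos_of_ne_zero (NeZero.ne K)
  have h0 : 0 ≤ (((n + 1) * K : ℕ) : ℝ) * y := by have := hy.1; positivity
  set m := ⌊(((n + 1) * K : ℕ) : ℝ) * y⌋₊ with hm
  have hdiv : ⌊((n + 1 : ℕ) : ℝ) * y⌋₊ = m / K := by
    rw [hm, ← Nat.floor_div_natCast]
    congr 1
    push_cast
    have : (K:ℝ) ≠ 0 := by exact_mod_cast hK.ne'
    field_simp
  rw [← Nat.floor_eq_iff h0, ← hm]
  unfold gK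
  rw [Prod.ext_iff, Fin.ext_iff, Fin.ext_iff]
  simp only
  rw [gN_val hy, hdiv, Fin.val_ofNat, ← hm]
  constructor
  · rintro ⟨h1, h2⟩
    rw [← h1, ← h2, mul_comm]
    exact (Nat.div_add_mod m K).symm
  · intro h
    constructor
    · rw [h, Nat.add_comm, Nat.add_mul_div_right _ _ hK, Nat.div_eq_of_lt b.2, zero_add]
    · rw [h, Nat.add_comm, Nat.add_mul_mod_self_right, Nat.mod_eq_of_lt b.2]

/-- Lebesgue measure on the unit interval as a measure on the line -/
noncomputable def lam : Measure ℝ := volume.restrict (Icc 0 1)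

lemma lam_eq : lam = volume.restrict (Ico 0 1) := Measure.restrict_congr_set Ico_ae_eq_Icc.symm

lemma unif_gK (n K : ℕ) [NeZero K] : Unif lam (gK n K) := by
  have hK : 0 < K := Nat.pos_of_ne_zero (NeZero.ne K)
  constructor
  · intro a; exact measurable_gK n K (measurableSet_singleton a)
  · rintro ⟨a, b⟩
    rw [lam_eq, Measure.restrict_apply (measurable_gK n K (measurableSet_singleton _))]
    set D : ℝ := (((n + 1) * K : ℕ) : ℝ) with hD
    have hD0 : 0 < D := by rw [hD]; positivity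
    have hset : gK n K ⁻¹' {(a, b)} ∩ Ico 0 1 = Ico (((a.val * K + b.val : ℕ) : ℝ) / D) ((((a.val * K + b.val : ℕ) : ℝ) + 1) / D) := by
      ext y
      constructor
      · rintro ⟨h1, h2⟩
        have h3 := (gK_iff h2 a b).mp h1
        constructor
        · rw [div_le_iff₀ hD0, mul_comm y D]; exact h3.1
        · rw [lt_div_iff₀ hD0, mul_comm y D]; exact h3.2
      · rintro ⟨h1, h2⟩
        rw [div_le_iff₀ hD0, mul_comm y D] at h1
        rw [lt_div_iff₀ hD0, mul_comm y D] at h2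
        have hy0 : 0 ≤ y := by
          have h3 : 0 ≤ D * y := le_trans (by positivity) h1
          exact nonneg_of_mul_nonneg_right h3 hD0
        have hlt : ((a.val * K + b.val : ℕ) : ℝ) + 1 ≤ D := by
          rw [hD]
          have h4 : a.val * K + b.val + 1 ≤ (n + 1) * K := by
            have h5 : a.val + 1 ≤ n + 1 := a.2
            have h6 : b.val + 1 ≤ K := b.2
            nlinarith
          exact_mod_cast h4
        have hy1 : y < 1 := by
          by_contra hcon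
          push Not at hcon
          nlinarith
        exact ⟨(gK_iff ⟨hy0, hy1⟩ a b).mpr ⟨h1, h2⟩, hy0, hy1⟩
    rw [hset, Real.volume_Ico]
    have : (((a.val * K + b.val : ℕ) : ℝ) + 1) / D - ((a.val * K + b.val : ℕ) : ℝ) / D = D⁻¹ := by
      field_simp
      ring
    rw [this, ENNReal.ofReal_inv_of_pos hD0, hD, ENNReal.ofReal_natCast]
    simp

/-- approximation by cells -/
lemma approx_real {B : Set ℝ} (hB : MeasurableSet B) : ∀ ε : ℝ≥0∞, 0 < ε → ∀ᶠ n in atTop, 
    ∃ S : Set (Fin (n + 1)), lam (B ∆ (gN n ⁻¹' S)) < ε := by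
  have hlamfin : IsFiniteMeasure lam := by unfold lam; infer_instance
  induction B, hB using MeasurableSpace.induction_on_inter (borel_eq_generateFrom_Iic ℝ ▸ BorelSpace.measurable_eq (α := ℝ)) isPiSystem_Iic with
  | empty => 
    intro ε hε
    filter_upwards with n
    exact ⟨∅, by simpa using hε⟩
  | basic B hB =>
    obtain ⟨t, rfl⟩ := hB
    intro ε hε
    have h1 : Tendsto (fun n : ℕ => ENNReal.ofReal (1 / ((n:ℝ) + 1))) atTop (𝓝 0) := by
      have := ENNReal.tendsto_ofReal (tendsto_one_div_add_atTop_nhds_zero_nat (𝕜 := ℝ))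
      simpa using this
    filter_upwards [h1.eventually_lt_const hε] with n hn
    refine ⟨{a | (a.val : ℝ) ≤ ((n + 1 : ℕ) : ℝ) * t}, ?_⟩
    refine lt_of_le_of_lt ?_ hn
    rw [lam_eq]
    have hsub : (Iic t ∆ (gN n ⁻¹' {a | (a.val : ℝ) ≤ ((n + 1 : ℕ) : ℝ) * t})) ∩ Ico 0 1 ⊆ Ioo t (t + 1 / ((n:ℝ) + 1)) := by
      rintro y ⟨hy, hy01⟩
      have hD : (0:ℝ) < ((n + 1 : ℕ) : ℝ) := by positivity
      have hfl : ((gN n y).val : ℝ) ≤ ((n + 1 : ℕ) : ℝ) * y := by
        rw [gN_val hy01]; exact Nat.floor_le (by have := hy01.1; positivity)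
      have hfl2 : ((n + 1 : ℕ) : ℝ) * y < (gN n y).val + 1 := by
        rw [gN_val hy01]; exact Nat.lt_floor_add_one _
      rcases hy with ⟨h2, h3⟩ | ⟨h2, h3⟩
      · exfalso
        apply h3
        simp only [mem_preimage, mem_ofPred_eq]
        have : y ≤ t := h2
        nlinarith
      · simp only [mem_preimage, mem_ofPred_eq] at h2
        simp only [mem_Iic, not_le] at h3
        refine ⟨h3, ?_⟩
        have h5 : ((n + 1 : ℕ) : ℝ) * y < ((n + 1 : ℕ) : ℝ) * t + 1 := by linarith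
        have h6 : ((n + 1 : ℕ) : ℝ) = (n:ℝ) + 1 := by push_cast; ring
        rw [h6] at h5 hD
        have h7 : ((n:ℝ) + 1) * (t + 1 / ((n:ℝ) + 1)) = ((n:ℝ) + 1) * t + 1 := by field_simp
        rw [← h7] at h5
        exact lt_of_mul_lt_mul_left h5 hD.le
    have hmeas : MeasurableSet (Iic t ∆ (gN n ⁻¹' {a | (a.val : ℝ) ≤ ((n + 1 : ℕ) : ℝ) * t})) := 
      measurableSet_Iic.symmDiff (measurable_gN n (MeasurableSet.of_discrete))
    rw [Measure.restrict_apply hmeas]
    calc volume _ ≤ volume (Ioo t (t + 1 / ((n:ℝ) + 1))) := measure_mono hsub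
      _ = _ := by rw [Real.volume_Ioo]; congr 1; ring
  | compl B hB ih =>
    intro ε hε
    filter_upwards [ih ε hε] with n hn
    obtain ⟨S, hS⟩ := hn
    refine ⟨Sᶜ, ?_⟩
    rwa [preimage_compl, compl_symmDiff_compl]
  | iUnion f f_disj f_meas hf =>
    intro ε hε
    rcases ENNReal.exists_pos_sum_of_countable' (ENNReal.half_pos hε.ne').ne' ℕ with ⟨δ, δpos, hδ⟩
    have htail : Tendsto (fun n ↦ lam (⋃ i ∈ Ici n, f i)) atTop (𝓝 0) :=
      tendsto_measure_biUnion_Ici_zero_of_pairwise_disjoint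
        (fun i ↦ (f_meas i).nullMeasurableSet) f_disj
    obtain ⟨J, hJ⟩ : ∃ n, lam (⋃ i ∈ Ici n, f i) < ε / 2 :=
      ((tendsto_order.1 htail).2 _ (ENNReal.half_pos hε.ne')).exists
    have hall : ∀ᶠ n in atTop, ∀ i ∈ Finset.range J, ∃ S : Set (Fin (n + 1)), lam (f i ∆ (gN n ⁻¹' S)) < δ i := by
      rw [Filter.eventually_all_finset]
      intro i _
      exact hf i (δ i) (δpos i)
    filter_upwards [hall] with n hn
    have hn' : ∀ i, ∃ S : Set (Fin (n + 1)), i ∈ Finset.range J → lam (f i ∆ (gN n ⁻¹' S)) < δ i := by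
      intro i
      by_cases hi : i ∈ Finset.range J
      · obtain ⟨S, hS⟩ := hn i hi
        exact ⟨S, fun _ => hS⟩
      · exact ⟨∅, fun h => absurd h hi⟩
    choose S hS using hn'
    refine ⟨⋃ i ∈ Finset.range J, S i, ?_⟩
    calc lam ((⋃ i, f i) ∆ (gN n ⁻¹' (⋃ i ∈ Finset.range J, S i)))
    _ ≤ lam ((⋃ i ∈ Finset.range J, (f i) ∆ (gN n ⁻¹' (S i))) ∪ ⋃ i ∈ Ici J, f i) := by
      apply measure_mono
      intro x hx
      simp only [Finset.mem_range, mem_symmDiff, mem_iUnion, exists_prop, not_exists, not_and,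
        mem_Ici, mem_union, mem_preimage] at hx ⊢
      rcases hx with ⟨⟨i, hi⟩, h2⟩ | ⟨⟨i, hi1, hi2⟩, h2⟩
      · by_cases hiJ : i < J
        · left; exact ⟨i, hiJ, Or.inl ⟨hi, h2 i hiJ⟩⟩
        · right; exact ⟨i, not_lt.mp hiJ, hi⟩
      · left; exact ⟨i, hi1, Or.inr ⟨hi2, h2 i⟩⟩
    _ ≤ ∑ i ∈ Finset.range J, lam ((f i) ∆ (gN n ⁻¹' (S i))) + lam (⋃ i ∈ Ici J, f i) := by
      apply (measure_union_le _ _).trans
      gcongr
      apply measure_biUnion_finset_le
    _ ≤ ∑ i ∈ Finset.range J, δ i + lam (⋃ i ∈ Ici J, f i) := by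
      gcongr with i hi; exact (hS i hi).le
    _ ≤ ∑' i, δ i + lam (⋃ i ∈ Ici J, f i) := by
      gcongr; exact ENNReal.sum_le_tsum (Finset.range J)
    _ < ε / 2 + ε / 2 := by gcongr
    _ = ε := ENNReal.add_halves ε

end Pool.Agent.Lib.MP_5d8c24_an
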