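import Mathlib
import Pool.Agent.Lib.MP_5d8c24_an.Cells

set_option linter.style.longLine false
set_option linter.unusedVariables false
set_option linter.unusedSectionVars false

open MeasureTheory Set Filter Topology
open scoped ENNReal symmDiff

namespace Pool.Agent.Lib.MP_5d8c24_an

variable {X : Type*} [MeasurableSpace X]

/-- distance of sets -/
noncomputable def dd (μ : Measure X) (A B : Set X) : ℝ := μ.real (A ∆ B)

section dd
variable {μ : Measure X} [IsProbabilityMeasure μ]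

lemma dd_nonneg (A B : Set X) : 0 ≤ dd μ A B := measureReal_nonneg
lemma dd_self (A : Set X) : dd μ A A = 0 := by simp [dd]
lemma dd_comm (A B : Set X) : dd μ A B = dd μ B A := by rw [dd, dd, symmDiff_comm]
lemma dd_triangle (A B C : Set X) : dd μ A C ≤ dd μ A B + dd μ B C := by
  unfold dd
  have h : μ.real (A ∆ C) ≤ μ.real (A ∆ B ∪ B ∆ C) := measureReal_mono (symmDiff_triangle A B C) (measure_ne_top _ _)
  exact h.trans (measureReal_union_le _ _)

lemma dd_preimage {T : X → X} (hT : MeasurePreserving T μ μ) {A B : Set X} (hA : MeasurableSet A) (hB : MeasurableSet B) : 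
    dd μ (T ⁻¹' A) (T ⁻¹' B) = dd μ A B := by
  unfold dd
  rw [← preimage_symmDiff, Measure.real, hT.measure_preimage (hA.symmDiff hB).nullMeasurableSet, Measure.real]

lemma dd_eq_toReal (A B : Set X) : dd μ A B = (μ (A ∆ B)).toReal := rfl

lemma dd_lt_of {A B : Set X} {ε : ℝ} (h : μ (A ∆ B) < ENNReal.ofReal ε) : dd μ A B < ε := by
  rw [dd_eq_toReal]
  exact (ENNReal.lt_ofReal_iff_toReal_lt (measure_ne_top _ _)).mp h

lemma abs_measure_sub_le (A B : Set X) : |μ.real A - μ.real B| ≤ dd μ A B := by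
  have key : ∀ A B : Set X, μ.real A ≤ μ.real B + dd μ A B := by
    intro A B
    have h : μ.real A ≤ μ.real (B ∪ A ∆ B) := by
      apply measureReal_mono _ (measure_ne_top _ _)
      intro x hx
      by_cases h : x ∈ B
      · left; exact h
      · right; exact Or.inl ⟨hx, h⟩
    exact h.trans (measureReal_union_le _ _)
  rw [abs_sub_le_iff]
  constructor
  · linarith [key A B]
  · have := key B A
    rw [dd_comm] at this
    linarith

lemma dd_inter (A B C D : Set X) : dd μ (A ∩ B) (C ∩ D) ≤ dd μ A C + dd μ B D := by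
  unfold dd
  have h : μ.real ((A ∩ B) ∆ (C ∩ D)) ≤ μ.real (A ∆ C ∪ B ∆ D) := by
    apply measureReal_mono _ (measure_ne_top _ _)
    rintro x (⟨⟨h1, h2⟩, h3⟩ | ⟨⟨h1, h2⟩, h3⟩)
    · by_cases h : x ∈ C
      · right; left; exact ⟨h2, fun h4 => h3 ⟨h, h4⟩⟩
      · left; left; exact ⟨h1, h⟩
    · by_cases h : x ∈ A
      · right; right; exact ⟨h2, fun h4 => h3 ⟨h, h4⟩⟩
      · left; right; exact ⟨h1, h⟩
  exact h.trans (measureReal_union_le _ _)

lemma dd_union (A B C D : Set X) : dd μ (A ∪ B) (C ∪ D) ≤ dd μ A C + dd μ B D := by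
  unfold dd
  have h : μ.real ((A ∪ B) ∆ (C ∪ D)) ≤ μ.real (A ∆ C ∪ B ∆ D) := by
    apply measureReal_mono _ (measure_ne_top _ _)
    rintro x (⟨h1 | h1, h3⟩ | ⟨h1 | h1, h3⟩)
    · left; left; exact ⟨h1, fun h4 => h3 (Or.inl h4)⟩
    · right; left; exact ⟨h1, fun h4 => h3 (Or.inr h4)⟩
    · left; right; exact ⟨h1, fun h4 => h3 (Or.inl h4)⟩
    · right; right; exact ⟨h1, fun h4 => h3 (Or.inr h4)⟩
  exact h.trans (measureReal_union_le _ _)

lemma dd_compl (A B : Set X) : dd μ Aᶜ Bᶜ = dd μ A B := by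
  unfold dd; rw [compl_symmDiff_compl]

end dd

/-- existence of a system of cells -/
lemma exists_cells [StandardBorelSpace X] (μ : Measure X) [IsProbabilityMeasure μ] [NullSingletonClass μ] :
    ∃ c : (n : ℕ) → X → Fin (n + 1), 
      (∀ A, MeasurableSet A → ∀ ε : ℝ, 0 < ε → ∀ᶠ n in atTop, ∃ S : Set (Fin (n + 1)), dd μ A (c n ⁻¹' S) < ε) ∧
      (∀ n, ∀ (Q : Type) [Fintype Q] [Nonempty Q], ∃ c' : X → Fin (n + 1) × Q, Unif μ c' ∧ ∀ x, (c' x).1 = c n x) := by
  have hμ : μ ≠ 0 := IsProbabilityMeasure.ne_zero μ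
  obtain ⟨e, he⟩ := exists_iso_model μ hμ
  have h1 : μ.real univ = 1 := by simp
  rw [h1] at he
  have he' : MeasurePreserving e μ lam := he
  refine ⟨fun n x => gN n (e x), ?_, ?_⟩
  · intro A hA ε hε
    have hB : MeasurableSet (e.symm ⁻¹' A) := e.symm.measurable hA
    filter_upwards [approx_real hB (ENNReal.ofReal ε) (ENNReal.ofReal_pos.mpr hε)] with n hn
    obtain ⟨S, hS⟩ := hn
    refine ⟨S, dd_lt_of ?_⟩
    have hset : A ∆ ((fun x => gN n (e x)) ⁻¹' S) = e ⁻¹' ((e.symm ⁻¹' A) ∆ (gN n ⁻¹' S)) := by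
      rw [preimage_symmDiff]
      congr 1
      ext x; simp
    rw [hset, he'.measure_preimage (hB.symmDiff (measurable_gN n (MeasurableSet.of_discrete))).nullMeasurableSet]
    exact hS
  · intro n Q _ _
    obtain ⟨θ⟩ : Nonempty (Fin (Fintype.card Q) ≃ Q) := ⟨(Fintype.equivFin Q).symm⟩
    have : NeZero (Fintype.card Q) := ⟨Fintype.card_ne_zero⟩
    refine ⟨fun x => ((gK n (Fintype.card Q) (e x)).1, θ (gK n (Fintype.card Q) (e x)).2), ⟨?_, ?_⟩, ?_⟩
    · rintro ⟨a, b⟩
      have : (fun x => ((gK n (Fintype.card Q) (e x)).1, θ (gK n (Fintype.card Q) (e x)).2)) ⁻¹' {(a, b)} 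
          = e ⁻¹' (gK n (Fintype.card Q) ⁻¹' {(a, θ.symm b)}) := by
        ext x
        simp only [mem_preimage, mem_singleton_iff, Prod.ext_iff, Equiv.eq_symm_apply]
      rw [this]
      exact e.measurable ((unif_gK n (Fintype.card Q)).meas _)
    · rintro ⟨a, b⟩
      have : (fun x => ((gK n (Fintype.card Q) (e x)).1, θ (gK n (Fintype.card Q) (e x)).2)) ⁻¹' {(a, b)} 
          = e ⁻¹' (gK n (Fintype.card Q) ⁻¹' {(a, θ.symm b)}) := by
        ext x
        simp only [mem_preimage, mem_singleton_iff, Prod.ext_iff, Equiv.eq_symm_apply]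
      rw [this, he'.measure_preimage ((unif_gK n (Fintype.card Q)).meas _).nullMeasurableSet, (unif_gK n (Fintype.card Q)).unif]
      simp
    · intro x; rfl

lemma Unif.comp_equiv {μ : Measure X} {Λ Λ' : Type*} [Fintype Λ] [Fintype Λ'] {c : X → Λ} (h : Unif μ c) (θ : Λ ≃ Λ') : 
    Unif μ (fun x => θ (c x)) := by
  have hpre : ∀ a, (fun x => θ (c x)) ⁻¹' {a} = c ⁻¹' {θ.symm a} := by
    intro a; ext x; simp [Equiv.eq_symm_apply]
  constructor
  · intro a; rw [hpre]; exact h.meas _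
  · intro a; rw [hpre, h.unif, Fintype.card_congr θ]

lemma Unif.dd_eq {μ : Measure X} {Λ : Type*} [Fintype Λ] {c : X → Λ} (h : Unif μ c) (P Q : Λ → Prop) [DecidablePred P] [DecidablePred Q] :
    dd μ {x | P (c x)} {x | Q (c x)} = ((Finset.univ.filter (fun a => ¬ (P a ↔ Q a))).card : ℝ) / Fintype.card Λ := by
  classical
  rw [← h.measureReal, dd]
  congr 1
  ext x
  simp only [mem_symmDiff, mem_ofPred_eq, Finset.coe_filter, Finset.mem_univ, true_and, mem_preimage]
  tauto

/-- Halmos approximation -/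
theorem halmos [StandardBorelSpace X] (μ : Measure X) [IsProbabilityMeasure μ] [NullSingletonClass μ]
    {c : (n : ℕ) → X → Fin (n + 1)} 
    (hc1 : ∀ A, MeasurableSet A → ∀ ε : ℝ, 0 < ε → ∀ᶠ n in atTop, ∃ S : Set (Fin (n + 1)), dd μ A (c n ⁻¹' S) < ε)
    (hc2 : ∀ n, ∀ (Q : Type) [Fintype Q] [Nonempty Q], ∃ c' : X → Fin (n + 1) × Q, Unif μ c' ∧ ∀ x, (c' x).1 = c n x)
    {T0 : X → X} (hT0 : MeasurePreserving T0 μ μ) (A : ℕ → Set X) (hA : ∀ m, MeasurableSet (A m)) (k : ℕ) {η : ℝ} (hη : 0 < η) :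
    ∃ (n : ℕ) (π : Equiv.Perm (Fin (n + 1))) (T : X ≃ᵐ X), MeasurePreserving T μ μ ∧ (∀ x, c n (T x) = π (c n x)) ∧ 
      (∀ m < k, ∃ S : Set (Fin (n + 1)), dd μ (A m) (c n ⁻¹' S) < η) ∧ 
      (∀ m < k, dd μ (T ⁻¹' (A m)) (T0 ⁻¹' (A m)) < η) := by
  classical
  set η' : ℝ := η / (2 * k + 2) with hη'
  have hη'0 : 0 < η' := by positivity
  have hη'1 : (2 * k + 2) * η' = η := by rw [hη']; field_simp
  have hk0 : (0:ℝ) ≤ k := Nat.cast_nonneg k
  have hη'2 : η' ≤ η := by nlinarith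
  have hev : ∀ᶠ n in atTop, ∀ m ∈ Finset.range k, (∃ S : Set (Fin (n + 1)), dd μ (A m) (c n ⁻¹' S) < η') ∧ 
      (∃ S : Set (Fin (n + 1)), dd μ (T0 ⁻¹' (A m)) (c n ⁻¹' S) < η') := by
    rw [Filter.eventually_all_finset]
    intro m _
    exact (hc1 (A m) (hA m) η' hη'0).and (hc1 (T0 ⁻¹' (A m)) (hT0.measurable (hA m)) η' hη'0)
  obtain ⟨n, hn⟩ := hev.exists
  have hn' : ∀ m, ∃ S S' : Set (Fin (n + 1)), m < k → dd μ (A m) (c n ⁻¹' S) < η' ∧ dd μ (T0 ⁻¹' (A m)) (c n ⁻¹' S') < η' := by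
    intro m
    by_cases hm : m < k
    · obtain ⟨⟨S, hS⟩, ⟨S', hS'⟩⟩ := hn m (Finset.mem_range.mpr hm)
      exact ⟨S, S', fun _ => ⟨hS, hS'⟩⟩
    · exact ⟨∅, ∅, fun h => absurd h hm⟩
  choose Ah Bh hAB using hn'
  -- uniformity of c n
  have hunif : Unif μ (c n) := by
    obtain ⟨c', hc', hc'1⟩ := hc2 n Unit
    have h2 := hc'.comp_equiv (Equiv.prodPUnit (Fin (n+1)))
    have h3 : (fun x => (Equiv.prodPUnit (Fin (n+1))) (c' x)) = c n := by
      funext x
      exact hc'1 x
    rwa [h3] at h2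
  set C : Fin (n+1) → Set X := fun a => c n ⁻¹' {a} with hC
  have hCm : ∀ a, MeasurableSet (C a) := hunif.meas
  have hCr : ∀ a, μ.real (C a) = 1 / (n + 1 : ℝ) := by
    intro a
    have := hunif.unif a
    rw [Measure.real, hC]
    simp only
    rw [this, Fintype.card_fin, ENNReal.toReal_inv, ENNReal.toReal_natCast]
    push_cast
    rw [one_div]
  have hsplit : ∀ S : Set X, MeasurableSet S → μ.real S = ∑ a, μ.real (S ∩ C a) := by
    intro S hS
    rw [Measure.real, measure_split (c := c n) μ hunif.meas hS, ENNReal.toReal_sum (fun a _ => measure_ne_top _ _)]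
    rfl
  -- the doubly stochastic matrix
  set P : Matrix (Fin (n+1)) (Fin (n+1)) ℝ := fun a b => (n + 1) * μ.real (C a ∩ T0 ⁻¹' (C b)) with hP
  have hPds : P ∈ doublyStochastic ℝ (Fin (n+1)) := by
    rw [mem_doublyStochastic_iff_sum]
    refine ⟨?_, ?_, ?_⟩
    · intro a b; rw [hP]; positivity
    · intro a
      simp only [hP]
      rw [← Finset.mul_sum]
      have h1 : ∑ b, μ.real (C a ∩ T0 ⁻¹' (C b)) = μ.real (C a) := by
        have hs := measure_split (c := fun x => c n (T0 x)) μ (fun b => hT0.measurable (hCm b)) (hCm a)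
        rw [Measure.real, hs, ENNReal.toReal_sum (fun a _ => measure_ne_top _ _)]
        rfl
      rw [h1, hCr]
      field_simp
    · intro b
      simp only [hP]
      rw [← Finset.mul_sum]
      have h1 : ∑ a, μ.real (C a ∩ T0 ⁻¹' (C b)) = μ.real (C b) := by
        have h2 : μ.real (C b) = μ.real (T0 ⁻¹' (C b)) := by
          rw [Measure.real, Measure.real, hT0.measure_preimage (hCm b).nullMeasurableSet]
        rw [h2, hsplit _ (hT0.measurable (hCm b))]
        apply Finset.sum_congr rfl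
        intro a _
        rw [inter_comm]
      rw [h1, hCr]
      field_simp
  obtain ⟨w, hw0, hw1, hwP⟩ := exists_eq_sum_perm_of_mem_doublyStochastic hPds
  -- cost
  set cost : Fin (n+1) → Fin (n+1) → ℝ := fun a b => ∑ m ∈ Finset.range k, if (a ∈ Bh m ↔ b ∈ Ah m) then 0 else 1 with hcost
  have hPcost : ∑ a, ∑ b, P a b * cost a b ≤ (n + 1) * (2 * k * η') := by
    have h1 : ∑ a, ∑ b, P a b * cost a b = (n + 1) * ∑ m ∈ Finset.range k, dd μ (c n ⁻¹' (Bh m)) (T0 ⁻¹' (c n ⁻¹' (Ah m))) := by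
      have h2 : ∀ m, dd μ (c n ⁻¹' (Bh m)) (T0 ⁻¹' (c n ⁻¹' (Ah m))) = 
          ∑ a, ∑ b, μ.real (C a ∩ T0 ⁻¹' (C b)) * (if (a ∈ Bh m ↔ b ∈ Ah m) then 0 else 1) := by
        intro m
        rw [dd, hsplit _ ((hunif.measurableSet _).symmDiff (hT0.measurable (hunif.measurableSet _)))]
        apply Finset.sum_congr rfl
        intro a _
        have hs := measure_split (c := fun x => c n (T0 x)) μ (fun b => hT0.measurable (hCm b)) 
          (((hunif.measurableSet (Bh m)).symmDiff (hT0.measurable (hunif.measurableSet (Ah m)))).inter (hCm a))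
        rw [Measure.real, hs, ENNReal.toReal_sum (fun a _ => measure_ne_top _ _)]
        apply Finset.sum_congr rfl
        intro b _
        by_cases hab : (a ∈ Bh m ↔ b ∈ Ah m)
        · rw [if_pos hab, mul_zero]
          have : ((c n ⁻¹' Bh m) ∆ (T0 ⁻¹' (c n ⁻¹' Ah m)) ∩ C a) ∩ ((fun x => c n (T0 x)) ⁻¹' {b}) = ∅ := by
            ext x
            simp only [mem_inter_iff, mem_symmDiff, mem_preimage, mem_singleton_iff, mem_empty_iff_false, iff_false, hC]
            rintro ⟨⟨h3, h4⟩, h5⟩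
            rw [h4, h5] at h3
            tauto
          rw [this]; simp
        · rw [if_neg hab, mul_one, Measure.real]
          congr 2
          ext x
          simp only [mem_inter_iff, mem_symmDiff, mem_preimage, mem_singleton_iff, hC]
          constructor
          · rintro ⟨⟨_, h4⟩, h5⟩; exact ⟨h4, h5⟩
          · rintro ⟨h4, h5⟩
            rw [h4, h5]
            refine ⟨⟨?_, rfl⟩, rfl⟩
            tauto
      calc ∑ a, ∑ b, P a b * cost a b = ∑ a, ∑ b, ∑ m ∈ Finset.range k, (n + 1) * (μ.real (C a ∩ T0 ⁻¹' (C b)) * (if (a ∈ Bh m ↔ b ∈ Ah m) then 0 else 1)) := by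
            apply Finset.sum_congr rfl
            intro a _
            apply Finset.sum_congr rfl
            intro b _
            simp only [hP, hcost]
            rw [Finset.mul_sum]
            apply Finset.sum_congr rfl
            intro m _
            ring
        _ = ∑ m ∈ Finset.range k, ∑ a, ∑ b, (n + 1) * (μ.real (C a ∩ T0 ⁻¹' (C b)) * (if (a ∈ Bh m ↔ b ∈ Ah m) then 0 else 1)) := by
            rw [Finset.sum_comm]
            conv_rhs => rw [Finset.sum_comm]
            rw [Finset.sum_comm]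
            apply Finset.sum_congr rfl
            intro a _
            rw [Finset.sum_comm]
        _ = _ := by
            rw [Finset.mul_sum]
            apply Finset.sum_congr rfl
            intro m _
            rw [h2 m, Finset.mul_sum]
            apply Finset.sum_congr rfl
            intro a _
            rw [Finset.mul_sum]
    rw [h1]
    gcongr
    calc ∑ m ∈ Finset.range k, dd μ (c n ⁻¹' (Bh m)) (T0 ⁻¹' (c n ⁻¹' (Ah m))) ≤ ∑ m ∈ Finset.range k, 2 * η' := by
          apply Finset.sum_le_sum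
          intro m hm
          have h3 := hAB m (Finset.mem_range.mp hm)
          have h4 := dd_triangle (μ := μ) (c n ⁻¹' (Bh m)) (T0 ⁻¹' (A m)) (T0 ⁻¹' (c n ⁻¹' (Ah m)))
          rw [dd_preimage hT0 (hA m) (hunif.measurableSet _), dd_comm (c n ⁻¹' (Bh m)) (T0 ⁻¹' (A m))] at h4
          linarith [h3.1, h3.2]
      _ = 2 * k * η' := by rw [Finset.sum_const, Finset.card_range]; simp; ring
  -- choice of the permutation
  obtain ⟨π, hπ⟩ : ∃ π : Equiv.Perm (Fin (n+1)), ∑ a, cost a (π a) ≤ ∑ a, ∑ b, P a b * cost a b := by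
    have h1 : ∑ a, ∑ b, P a b * cost a b = ∑ σ : Equiv.Perm (Fin (n+1)), w σ * ∑ a, cost a (σ a) := by
      rw [← hwP]
      simp only [Matrix.sum_apply, Matrix.smul_apply, smul_eq_mul, Finset.sum_mul]
      calc ∑ a, ∑ b, ∑ σ : Equiv.Perm (Fin (n+1)), w σ * σ.permMatrix ℝ a b * cost a b 
          = ∑ σ : Equiv.Perm (Fin (n+1)), ∑ a, ∑ b, w σ * σ.permMatrix ℝ a b * cost a b := by
            rw [Finset.sum_comm]
            conv_rhs => rw [Finset.sum_comm]
            rw [Finset.sum_comm]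
            apply Finset.sum_congr rfl
            intro a _
            rw [Finset.sum_comm]
        _ = _ := by
            apply Finset.sum_congr rfl
            intro σ _
            rw [Finset.mul_sum]
            apply Finset.sum_congr rfl
            intro a _
            rw [Finset.sum_eq_single (σ a)]
            · simp [Equiv.Perm.permMatrix, PEquiv.toMatrix_apply]
            · intro b _ hb
              simp [Equiv.Perm.permMatrix, PEquiv.toMatrix_apply, Ne.symm hb]
            · intro h; exact absurd (Finset.mem_univ _) h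
    by_contra hcon
    push Not at hcon
    have h2 : ∑ σ : Equiv.Perm (Fin (n+1)), w σ * (∑ a, ∑ b, P a b * cost a b) = ∑ a, ∑ b, P a b * cost a b := by
      rw [← Finset.sum_mul, hw1, one_mul]
    have h3 : ∑ σ : Equiv.Perm (Fin (n+1)), w σ * (∑ a, cost a (σ a) - ∑ a, ∑ b, P a b * cost a b) = 0 := by
      simp only [mul_sub]
      rw [Finset.sum_sub_distrib, h2, ← h1, sub_self]
    have h4 : ∀ σ : Equiv.Perm (Fin (n+1)), 0 ≤ w σ * (∑ a, cost a (σ a) - ∑ a, ∑ b, P a b * cost a b) := 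
      fun σ => mul_nonneg (hw0 σ) (by linarith [hcon σ])
    rw [Finset.sum_eq_zero_iff_of_nonneg (fun σ _ => h4 σ)] at h3
    have h5 : ∀ σ, w σ = 0 := by
      intro σ
      rcases mul_eq_zero.mp (h3 σ (Finset.mem_univ _)) with h | h
      · exact h
      · exact absurd h (by linarith [hcon σ] : _ < _).ne'
    rw [Finset.sum_eq_zero (fun σ _ => h5 σ)] at hw1
    exact zero_ne_one hw1
  obtain ⟨T, hT, hcT⟩ := exists_realization μ hunif π
  refine ⟨n, π, T, hT, hcT, ?_, ?_⟩
  · intro m hm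
    exact ⟨Ah m, lt_of_lt_of_le (hAB m hm).1 hη'2⟩
  · intro m hm
    have h1 : dd μ (c n ⁻¹' (Bh m)) (T ⁻¹' (c n ⁻¹' (Ah m))) ≤ 2 * k * η' := by
      have h2 : T ⁻¹' (c n ⁻¹' (Ah m)) = {x | π (c n x) ∈ Ah m} := by
        ext x; simp only [mem_preimage, mem_ofPred_eq, hcT]
      have h3 : c n ⁻¹' (Bh m) = {x | c n x ∈ Bh m} := rfl
      rw [h2, h3, hunif.dd_eq (fun a => a ∈ Bh m) (fun a => π a ∈ Ah m), div_le_iff₀ (by positivity)]
      have h4 : ((Finset.univ.filter (fun a => ¬ (a ∈ Bh m ↔ π a ∈ Ah m))).card : ℝ) = ∑ a, (if (a ∈ Bh m ↔ π a ∈ Ah m) then 0 else 1 : ℝ) := by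
        rw [Finset.card_filter]
        push_cast
        apply Finset.sum_congr rfl
        intro a _
        by_cases h : (a ∈ Bh m ↔ π a ∈ Ah m)
        · simp [h]
        · simp [h]
      rw [h4]
      have h5 : ∑ a, (if (a ∈ Bh m ↔ π a ∈ Ah m) then 0 else 1 : ℝ) ≤ ∑ a, cost a (π a) := by
        apply Finset.sum_le_sum
        intro a _
        simp only [hcost]
        exact Finset.single_le_sum (f := fun m => (if (a ∈ Bh m ↔ π a ∈ Ah m) then 0 else 1 : ℝ)) 
          (fun i _ => by split_ifs <;> norm_num) (Finset.mem_range.mpr hm)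
      rw [Fintype.card_fin]
      push_cast
      linarith
    have h6 := dd_triangle (μ := μ) (T ⁻¹' (A m)) (T ⁻¹' (c n ⁻¹' (Ah m))) (T0 ⁻¹' (A m))
    have h7 := dd_triangle (μ := μ) (T ⁻¹' (c n ⁻¹' (Ah m))) (c n ⁻¹' (Bh m)) (T0 ⁻¹' (A m))
    rw [dd_preimage hT (hA m) (hunif.measurableSet _)] at h6
    rw [dd_comm (T ⁻¹' (c n ⁻¹' (Ah m))) (c n ⁻¹' (Bh m)), dd_comm (c n ⁻¹' (Bh m)) (T0 ⁻¹' (A m))] at h7
    have h8 := hAB m hm
    linarith [h8.1, h8.2]

end Pool.Agent.Lib.MP_5d8c24_an
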