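import Mathlib
import Pool.Agent.Lib.MP_5d8c24_an.Halmos

set_option linter.style.longLine false
set_option linter.unusedVariables false
set_option linter.unusedSectionVars false

open MeasureTheory Set Filter Topology
open scoped ENNReal symmDiff

namespace Pool.Agent.Lib.MP_5d8c24_an

variable {X : Type*} [MeasurableSpace X]

/-- rotation -/
def rot (L : ℕ) [NeZero L] : Equiv.Perm (Fin L) := Equiv.addRight (1 : Fin L)

lemma rot_val (L : ℕ) [NeZero L] (p : Fin L) : (rot L p).val = (p.val + 1) % L := by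
  unfold rot
  simp only [Equiv.coe_addRight]
  rw [Fin.val_add, Fin.val_one', Nat.add_mod_mod]

lemma rot_iterate_val (L : ℕ) [NeZero L] (j : ℕ) (p : Fin L) : ((rot L)^[j] p).val = (p.val + j) % L := by
  induction j with
  | zero => simp [Nat.mod_eq_of_lt p.2]
  | succ j ih => rw [Function.iterate_succ_apply', rot_val, ih, Nat.mod_add_mod, add_assoc]

lemma iterate_realize {Λ : Type*} {c : X → Λ} {T : X → X} {ρ : Λ → Λ} (h : ∀ x, c (T x) = ρ (c x)) (j : ℕ) (x : X) : 
    c (T^[j] x) = ρ^[j] (c x) := by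
  induction j generalizing x with
  | zero => rfl
  | succ j ih => rw [Function.iterate_succ_apply, ih, h, Function.iterate_succ_apply]

lemma prodMap_iterate {B : Type*} (L : ℕ) [NeZero L] (j : ℕ) (z : B × Fin L) : 
    (Equiv.prodCongr (Equiv.refl B) (rot L))^[j] z = (z.1, (rot L)^[j] z.2) := by
  induction j generalizing z with
  | zero => rfl
  | succ j ih => 
    rw [Function.iterate_succ_apply, ih, Function.iterate_succ_apply]
    rfl

lemma card_mod_le (q M : ℕ) (R : Finset ℕ) : 
    ((Finset.univ : Finset (Fin (q*M))).filter (fun p => p.val % M ∈ R)).card ≤ q * R.card := by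
  have h : ((Finset.range q) ×ˢ R).card = q * R.card := by simp
  rw [← h]
  apply Finset.card_le_card_of_injOn (fun p => (p.val / M, p.val % M))
  · intro p hp
    simp only [Finset.coe_filter, Finset.mem_univ, true_and, mem_ofPred_eq] at hp
    simp only [Finset.coe_product, Finset.coe_range, mem_prod, mem_Iio, Finset.mem_coe]
    refine ⟨?_, hp⟩
    have hp2 := p.2
    have hM : 0 < M := by
      rcases Nat.eq_zero_or_pos M with h0 | h0
      · subst h0; simp at hp2
      · exact h0
    exact Nat.div_lt_of_lt_mul (lt_of_lt_of_eq hp2 (mul_comm q M))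
  · intro p _ p' _ h
    simp only [Prod.mk.injEq] at h
    apply Fin.ext
    rw [← Nat.div_add_mod p.val M, ← Nat.div_add_mod p'.val M, h.1, h.2]

lemma card_prod_mod_le (B : Type*) [Fintype B] (q M : ℕ) (R : Finset ℕ) : 
    ((Finset.univ : Finset (B × Fin (q*M))).filter (fun z => z.2.val % M ∈ R)).card ≤ Fintype.card B * (q * R.card) := by
  have : (Finset.univ : Finset (B × Fin (q*M))).filter (fun z => z.2.val % M ∈ R) = 
      (Finset.univ : Finset B) ×ˢ ((Finset.univ : Finset (Fin (q*M))).filter (fun p => p.val % M ∈ R)) := by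
    ext z; simp
  rw [this, Finset.card_product, Finset.card_univ]
  exact Nat.mul_le_mul_left _ (card_mod_le q M R)

/-- The tower construction: data of a realisation of a periodic family of names. -/
lemma exists_tower [StandardBorelSpace X] (μ : Measure X) [IsProbabilityMeasure μ] [NullSingletonClass μ]
    {n : ℕ} {c : X → Fin (n + 1)} 
    (hc2 : ∀ (Q : Type) [Fintype Q] [Nonempty Q], ∃ c' : X → Fin (n + 1) × Q, Unif μ c' ∧ ∀ x, (c' x).1 = c x)
    {B Q : Type} [Fintype B] [Nonempty B] [Fintype Q] [Nonempty Q] (L : ℕ) [NeZero L] (loc : B × Fin L → Fin (n + 1)) 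
    (θ : Fin (n + 1) × Q ≃ B × Fin L) (hθ : ∀ z, loc (θ z) = z.1) :
    ∃ (c' : X → B × Fin L) (T : X ≃ᵐ X), Unif μ c' ∧ (∀ x, loc (c' x) = c x) ∧ MeasurePreserving T μ μ ∧ 
      ∀ j x, c' (T^[j] x) = ((c' x).1, (rot L)^[j] (c' x).2) := by
  obtain ⟨c1, hc1, hc1'⟩ := hc2 Q
  have hu := hc1.comp_equiv θ
  obtain ⟨T, hT, hTc⟩ := exists_realization μ hu (Equiv.prodCongr (Equiv.refl B) (rot L))
  refine ⟨fun x => θ (c1 x), T, hu, ?_, hT, ?_⟩
  · intro x; rw [hθ, hc1']
  · intro j x
    have h1 := iterate_realize (c := fun x => θ (c1 x)) hTc j x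
    rw [prodMap_iterate] at h1
    exact h1

/-- bound for the distance of events of a uniform function by counting -/
lemma Unif.dd_le {μ : Measure X} {Λ : Type*} [Fintype Λ] {c : X → Λ} (h : Unif μ c) (P Q : Λ → Prop) 
    (Bad : Finset Λ) (hbad : ∀ a, a ∉ Bad → (P a ↔ Q a)) :
    dd μ {x | P (c x)} {x | Q (c x)} ≤ (Bad.card : ℝ) / Fintype.card Λ := by
  classical
  rw [h.dd_eq]
  gcongr
  intro a ha
  simp only [Finset.mem_filter, Finset.mem_univ, true_and] at ha
  by_contra hcon
  exact ha (hbad a hcon)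



lemma towerD [StandardBorelSpace X] (μ : Measure X) [IsProbabilityMeasure μ] [NullSingletonClass μ]
    {n : ℕ} {c : X → Fin (n + 1)} 
    (hc2 : ∀ (Q : Type) [Fintype Q] [Nonempty Q], ∃ c' : X → Fin (n + 1) × Q, Unif μ c' ∧ ∀ x, (c' x).1 = c x)
    (hcu : Unif μ c) (π : Equiv.Perm (Fin (n + 1))) {T2 : X → X} (hT2 : ∀ x, c (T2 x) = π (c x)) (n0 q M : ℕ) (hq : 0 < q) (hM : 0 < M) :
    ∃ T : X ≃ᵐ X, MeasurePreserving T μ μ ∧ 
      (∀ S : Set (Fin (n + 1)), dd μ (T ⁻¹' (c ⁻¹' S)) (T2 ⁻¹' (c ⁻¹' S)) ≤ 1 / M) ∧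
      (∀ S : Set (Fin (n + 1)), dd μ (T^[M] ⁻¹' (c ⁻¹' S)) (T^[n0] ⁻¹' (c ⁻¹' S)) ≤ n0 / M + dd μ (c ⁻¹' S) (T2^[n0 * q] ⁻¹' (c ⁻¹' S))) ∧
      (∀ S : Set (Fin (n + 1)), dd μ (T^[M * q] ⁻¹' (c ⁻¹' S)) (c ⁻¹' S) = 0) := by
  classical
  have hL : NeZero (q * M) := ⟨by positivity⟩
  let F : Fin (q * M) → ℕ := fun p => p.val % M + (p.val / M) * n0
  let loc : Fin (n + 1) × Fin (q * M) → Fin (n + 1) := fun z => (π ^ F z.2) z.1
  let θ : Fin (n + 1) × Fin (q * M) ≃ Fin (n + 1) × Fin (q * M) := 
    { toFun := fun z => ((π ^ F z.2)⁻¹ z.1, z.2)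
      invFun := fun z => ((π ^ F z.2) z.1, z.2)
      left_inv := fun z => by simp
      right_inv := fun z => by simp }
  have hθ : ∀ z, loc (θ z) = z.1 := by
    intro z
    change (π ^ F z.2) ((π ^ F z.2)⁻¹ z.1) = z.1
    simp
  obtain ⟨c', T, hu, hloc, hT, hiter⟩ := exists_tower μ hc2 (q * M) loc θ hθ
  have hcard : (Fintype.card (Fin (n + 1) × Fin (q * M)) : ℝ) = (n + 1) * (q * M) := by
    rw [Fintype.card_prod, Fintype.card_fin, Fintype.card_fin]; push_cast; ring
  have hq0 : (0:ℝ) < q := by exact_mod_cast hq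
  have hM0 : (0:ℝ) < M := by exact_mod_cast hM
  have hn0 : (0:ℝ) < (n:ℝ) + 1 := by positivity
  have hTS : ∀ (j : ℕ) (S : Set (Fin (n+1))), T^[j] ⁻¹' (c ⁻¹' S) = {x | loc ((c' x).1, (rot (q*M))^[j] (c' x).2) ∈ S} := by
    intro j S
    ext x
    simp only [mem_preimage, mem_ofPred_eq]
    rw [← hloc, hiter]
  have hT2it : ∀ (j : ℕ) (x : X), c (T2^[j] x) = (π ^ j) (c x) := by
    intro j x
    rw [iterate_realize hT2 j x, Equiv.Perm.iterate_eq_pow]
  -- intermediate comparison with powers of π
  have hcomp : ∀ (j : ℕ) (S : Set (Fin (n+1))), 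
      dd μ (T^[j] ⁻¹' (c ⁻¹' S)) {x | (π ^ j) (loc (c' x)) ∈ S} ≤ j / M := by
    intro j S
    rw [hTS]
    set R : Finset ℕ := (Finset.range M).filter (fun r => M ≤ r + j) with hR
    have hRc : R.card ≤ j := by
      calc R.card ≤ (Finset.Ico (M - j) M).card := by
            apply Finset.card_le_card
            intro r hr
            rw [hR, Finset.mem_filter, Finset.mem_range] at hr
            rw [Finset.mem_Ico]
            omega
        _ = M - (M - j) := Nat.card_Ico _ _
        _ ≤ j := by omega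
    refine (hu.dd_le (fun z => loc (z.1, (rot (q*M))^[j] z.2) ∈ S) (fun z => (π ^ j) (loc z) ∈ S) 
      (Finset.univ.filter (fun z => z.2.val % M ∈ R)) ?_).trans ?_
    · rintro ⟨b, p⟩ hp
      simp only [Finset.mem_filter, Finset.mem_univ, true_and, hR, Finset.mem_range, not_and, not_le] at hp
      have hp1 := hp (Nat.mod_lt _ hM)
      have hpL := p.2
      have hdiv := Nat.div_add_mod p.val M
      have hplt : p.val / M < q := Nat.div_lt_of_lt_mul (lt_of_lt_of_eq hpL (mul_comm q M))
      have hlt : p.val + j < q * M := by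
        have h1 : M * (p.val / M + 1) ≤ M * q := Nat.mul_le_mul_left M hplt
        have h2 : M * (p.val / M + 1) = M * (p.val / M) + M := by ring
        have h3 : M * q = q * M := mul_comm _ _
        omega
      have hval : ((rot (q*M))^[j] p).val = p.val + j := by
        rw [rot_iterate_val, Nat.mod_eq_of_lt hlt]
      have hmod : (p.val + j) % M = p.val % M + j := by
        rw [Nat.add_mod]
        have hj : j < M := by omega
        rw [Nat.mod_eq_of_lt hj, Nat.mod_eq_of_lt hp1]
      have hdiv2 : (p.val + j) / M = p.val / M := by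
        have h1 := Nat.div_add_mod (p.val + j) M
        rw [hmod] at h1
        have h2 : M * ((p.val + j) / M) = M * (p.val / M) := by omega
        exact Nat.eq_of_mul_eq_mul_left hM h2
      have hFF : F ((rot (q*M))^[j] p) = j + F p := by
        simp only [F]
        rw [hval, hmod, hdiv2]
        ring
      simp only [loc]
      rw [hFF, pow_add, Equiv.Perm.mul_apply]
    · rw [hcard, div_le_div_iff₀ (by positivity) hM0]
      have h1 : (((Finset.univ.filter (fun z : Fin (n+1) × Fin (q*M) => z.2.val % M ∈ R)).card : ℕ) : ℝ) ≤ (n + 1) * (q * j) := by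
        have h2 := card_prod_mod_le (Fin (n+1)) q M R
        rw [Fintype.card_fin] at h2
        have h3 : (n+1) * (q * R.card) ≤ (n+1) * (q * j) := Nat.mul_le_mul_left _ (Nat.mul_le_mul_left _ hRc)
        calc _ ≤ (((n+1) * (q * j) : ℕ) : ℝ) := by exact_mod_cast h2.trans h3
          _ = _ := by push_cast; ring
      calc _ ≤ ((n:ℝ) + 1) * (q * j) * M := by gcongr
        _ = _ := by ring
  refine ⟨T, hT, ?_, ?_, ?_⟩
  · intro S
    have h1 := hcomp 1 S
    simp only [Function.iterate_one, pow_one, Nat.cast_one] at h1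
    have h2 : T2 ⁻¹' (c ⁻¹' S) = {x | π (loc (c' x)) ∈ S} := by
      ext x; simp only [mem_preimage, mem_ofPred_eq]; rw [hT2, hloc]
    rw [h2]; exact h1
  · intro S
    have h1 := hcomp n0 S
    -- comparison of T^M with π^n0
    have h2 : dd μ (T^[M] ⁻¹' (c ⁻¹' S)) {x | (π ^ n0) (loc (c' x)) ∈ S} ≤ dd μ (c ⁻¹' S) (T2^[n0 * q] ⁻¹' (c ⁻¹' S)) := by
      have h3 : dd μ (c ⁻¹' S) (T2^[n0 * q] ⁻¹' (c ⁻¹' S)) = 
          ((Finset.univ.filter (fun a => ¬ (a ∈ S ↔ (π ^ (n0 * q)) a ∈ S))).card : ℝ) / (n + 1) := by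
        have h4 : T2^[n0 * q] ⁻¹' (c ⁻¹' S) = {x | (π ^ (n0 * q)) (c x) ∈ S} := by
          ext x; simp only [mem_preimage, mem_ofPred_eq]; rw [hT2it]
        have h5 : c ⁻¹' S = {x | c x ∈ S} := rfl
        rw [h4, h5, hcu.dd_eq (fun a => a ∈ S) (fun a => (π ^ (n0 * q)) a ∈ S), Fintype.card_fin]
        push_cast; rfl
      rw [h3, hTS]
      set BadA : Finset (Fin (n+1)) := Finset.univ.filter (fun a => ¬ (a ∈ S ↔ (π ^ (n0 * q)) a ∈ S)) with hBadA
      set Bad : Finset (Fin (n+1) × Fin (q*M)) := Finset.univ.filter (fun z => z.2.val / M = q - 1 ∧ (π ^ (z.2.val % M)) z.1 ∈ BadA) with hBad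
      refine (hu.dd_le (fun z => loc (z.1, (rot (q*M))^[M] z.2) ∈ S) (fun z => (π ^ n0) (loc z) ∈ S) Bad ?_).trans ?_
      · rintro ⟨b, p⟩ hp
        rw [hBad, hBadA] at hp
        simp only [Finset.mem_filter, Finset.mem_univ, true_and, not_and, not_not] at hp
        have hpL := p.2
        have hdiv := Nat.div_add_mod p.val M
        have hplt : p.val / M < q := Nat.div_lt_of_lt_mul (lt_of_lt_of_eq hpL (mul_comm q M))
        by_cases hlast : p.val / M = q - 1
        · have h6 := hp hlast
          have hval : ((rot (q*M))^[M] p).val = p.val % M := by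
            rw [rot_iterate_val]
            have h7 : p.val + M = p.val % M + q * M := by
              have h8 : M * (p.val / M) = M * (q - 1) := by rw [hlast]
              have h9 : M * (q - 1) + M = q * M := by
                obtain ⟨q', rfl⟩ : ∃ q', q = q' + 1 := ⟨q - 1, by omega⟩
                simp only [Nat.add_sub_cancel]; ring
              omega
            rw [h7, Nat.add_mod_right, Nat.mod_eq_of_lt]
            calc p.val % M < M := Nat.mod_lt _ hM
              _ = 1 * M := (one_mul M).symm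
              _ ≤ q * M := Nat.mul_le_mul_right M hq
          have hFF : F ((rot (q*M))^[M] p) = p.val % M := by
            simp only [F]
            rw [hval, Nat.mod_mod, Nat.div_eq_of_lt (Nat.mod_lt _ hM)]
            ring
          have hFp : n0 + F p = (n0 * q) + p.val % M := by
            simp only [F]
            rw [hlast]
            obtain ⟨q', rfl⟩ : ∃ q', q = q' + 1 := ⟨q - 1, by omega⟩
            simp only [Nat.add_sub_cancel]; ring
          simp only [loc]
          rw [hFF, ← Equiv.Perm.mul_apply, ← pow_add, hFp, pow_add, Equiv.Perm.mul_apply]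
          exact h6
        · have hlt1 : p.val / M + 1 < q := by omega
          have hlt : p.val + M < q * M := by
            have h1 : M * (p.val / M + 2) ≤ M * q := Nat.mul_le_mul_left M (by omega)
            have h2 : M * (p.val / M + 2) = M * (p.val / M) + 2 * M := by ring
            have h3 : M * q = q * M := mul_comm _ _
            have h4 := Nat.mod_lt p.val hM
            omega
          have hval : ((rot (q*M))^[M] p).val = p.val + M := by
            rw [rot_iterate_val, Nat.mod_eq_of_lt hlt]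
          have hFF : F ((rot (q*M))^[M] p) = n0 + F p := by
            simp only [F]
            rw [hval, Nat.add_mod_right, Nat.add_div_right _ hM]
            ring
          simp only [loc]
          rw [hFF, pow_add, Equiv.Perm.mul_apply]
      · have h6 : Bad.card ≤ BadA.card * M := by
          have h7 : (BadA ×ˢ (Finset.range M)).card = BadA.card * M := by simp
          rw [← h7]
          apply Finset.card_le_card_of_injOn (fun z => ((π ^ (z.2.val % M)) z.1, z.2.val % M))
          · rintro ⟨b, p⟩ hz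
            simp only [hBad, Finset.coe_filter, Finset.mem_univ, true_and, mem_ofPred_eq] at hz
            simp only [Finset.coe_product, Finset.coe_range, mem_prod, mem_Iio, Finset.mem_coe]
            exact ⟨hz.2, Nat.mod_lt _ hM⟩
          · rintro ⟨b, p⟩ hz ⟨b', p'⟩ hz' h
            simp only [hBad, Finset.coe_filter, Finset.mem_univ, true_and, mem_ofPred_eq] at hz hz'
            simp only [Prod.mk.injEq] at h
            have h8 : p = p' := by
              apply Fin.ext
              rw [← Nat.div_add_mod p.val M, ← Nat.div_add_mod p'.val M, h.2, hz.1, hz'.1]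
            subst h8
            have h9 := h.1
            have h10 : b = b' := (π ^ (p.val % M)).injective h9
            rw [h10]
        rw [hcard, div_le_div_iff₀ (by positivity) hn0]
        have h7 : (Bad.card : ℝ) ≤ BadA.card * M := by exact_mod_cast h6
        have hq1 : (1:ℝ) ≤ q := by exact_mod_cast hq
        calc (Bad.card : ℝ) * (n + 1) ≤ (BadA.card * M) * (n + 1) := by gcongr
          _ ≤ (BadA.card * M) * (n + 1) * q := by
            apply le_mul_of_one_le_right (by positivity) hq1
          _ = _ := by ring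
    have h3 := dd_triangle (μ := μ) (T^[M] ⁻¹' (c ⁻¹' S)) {x | (π ^ n0) (loc (c' x)) ∈ S} (T^[n0] ⁻¹' (c ⁻¹' S))
    rw [dd_comm {x | (π ^ n0) (loc (c' x)) ∈ S} (T^[n0] ⁻¹' (c ⁻¹' S))] at h3
    linarith
  · intro S
    rw [hTS]
    have h1 : c ⁻¹' S = {x | loc (c' x) ∈ S} := by
      ext x; simp only [mem_preimage, mem_ofPred_eq]; rw [hloc]
    have h2 : ∀ p : Fin (q*M), (rot (q*M))^[M*q] p = p := by
      intro p
      apply Fin.ext
      rw [rot_iterate_val, mul_comm M q, Nat.add_mod_right, Nat.mod_eq_of_lt p.2]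
    rw [h1]
    simp only [h2]
    exact dd_self _

end Pool.Agent.Lib.MP_5d8c24_an
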