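import Mathlib
import Pool.Agent.Lib.MP_5d8c24_an.TowerD

set_option linter.style.longLine false
set_option linter.unusedVariables false
set_option linter.unusedSectionVars false

open MeasureTheory Set Filter Topology
open scoped ENNReal symmDiff

namespace Pool.Agent.Lib.MP_5d8c24_an

variable {X : Type*} [MeasurableSpace X]

lemma towerW [StandardBorelSpace X] (μ : Measure X) [IsProbabilityMeasure μ] [NullSingletonClass μ]
    {n : ℕ} {c : X → Fin (n + 1)} 
    (hc2 : ∀ (Q : Type) [Fintype Q] [Nonempty Q], ∃ c' : X → Fin (n + 1) × Q, Unif μ c' ∧ ∀ x, (c' x).1 = c x)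
    (hcu : Unif μ c) (π : Equiv.Perm (Fin (n + 1))) {T2 : X → X} (hT2 : ∀ x, c (T2 x) = π (c x)) (M : ℕ) (hM : 0 < M) :
    ∃ T : X ≃ᵐ X, MeasurePreserving T μ μ ∧ 
      (∀ S : Set (Fin (n + 1)), dd μ (T ⁻¹' (c ⁻¹' S)) (T2 ⁻¹' (c ⁻¹' S)) ≤ 1 / M) ∧
      (∀ S S' : Set (Fin (n + 1)), μ.real (T^[M] ⁻¹' (c ⁻¹' S) ∩ c ⁻¹' S') = μ.real (c ⁻¹' S) * μ.real (c ⁻¹' S')) := by
  classical
  have hL : NeZero (2 * M) := ⟨by positivity⟩
  let loc : (Fin (n + 1) × Fin (n + 1)) × Fin (2 * M) → Fin (n + 1) := fun z => 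
    (π ^ (z.2.val % M)) (if z.2.val < M then z.1.1 else z.1.2)
  let θ : Fin (n + 1) × (Fin (n + 1) × Fin (2 * M)) ≃ (Fin (n + 1) × Fin (n + 1)) × Fin (2 * M) := 
    { toFun := fun z => if z.2.2.val < M then (((π ^ (z.2.2.val % M))⁻¹ z.1, z.2.1), z.2.2) else ((z.2.1, (π ^ (z.2.2.val % M))⁻¹ z.1), z.2.2)
      invFun := fun z => if z.2.val < M then ((π ^ (z.2.val % M)) z.1.1, (z.1.2, z.2)) else ((π ^ (z.2.val % M)) z.1.2, (z.1.1, z.2))
      left_inv := fun z => by
        by_cases h : z.2.2.val < M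
        · simp [h]
        · simp [h]
      right_inv := fun z => by
        by_cases h : z.2.val < M
        · simp [h]
        · simp [h] }
  have hθ : ∀ z, loc (θ z) = z.1 := by
    intro z
    by_cases h : z.2.2.val < M
    · simp [loc, θ, h]
    · simp [loc, θ, h]
  obtain ⟨c', T, hu, hloc, hT, hiter⟩ := exists_tower μ hc2 (2 * M) loc θ hθ
  have hcard : (Fintype.card ((Fin (n + 1) × Fin (n + 1)) × Fin (2 * M)) : ℝ) = (n + 1) * (n + 1) * (2 * M) := by
    rw [Fintype.card_prod, Fintype.card_prod, Fintype.card_fin, Fintype.card_fin]; push_cast; ring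
  have hM0 : (0:ℝ) < M := by exact_mod_cast hM
  have hn0 : (0:ℝ) < (n:ℝ) + 1 := by positivity
  have hTS : ∀ (j : ℕ) (S : Set (Fin (n+1))), T^[j] ⁻¹' (c ⁻¹' S) = {x | loc ((c' x).1, (rot (2*M))^[j] (c' x).2) ∈ S} := by
    intro j S
    ext x
    simp only [mem_preimage, mem_ofPred_eq]
    rw [← hloc, hiter]
  refine ⟨T, hT, ?_, ?_⟩
  · intro S
    have h2 : T2 ⁻¹' (c ⁻¹' S) = {x | π (loc (c' x)) ∈ S} := by
      ext x; simp only [mem_preimage, mem_ofPred_eq]; rw [hT2, hloc]
    have h3 := hTS 1 S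
    simp only [Function.iterate_one] at h3
    rw [h2, h3]
    refine (hu.dd_le (fun z => loc (z.1, rot (2*M) z.2) ∈ S) (fun z => π (loc z) ∈ S) 
      (Finset.univ.filter (fun z => z.2.val % M ∈ ({M - 1} : Finset ℕ))) ?_).trans ?_
    · rintro ⟨b, p⟩ hp
      simp only [Finset.mem_filter, Finset.mem_univ, true_and, Finset.mem_singleton] at hp
      have hpL := p.2
      have hdiv := Nat.div_add_mod p.val M
      have hr := Nat.mod_lt p.val hM
      have hr2 : p.val % M + 1 < M := by omega
      have hplt : p.val / M < 2 := Nat.div_lt_of_lt_mul (lt_of_lt_of_eq hpL (mul_comm 2 M))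
      have hcase : p.val / M = 0 ∨ p.val / M = 1 := by
        revert hplt
        generalize p.val / M = e
        omega
      have hval : (rot (2*M) p).val = p.val + 1 := by
        rw [rot_val, Nat.mod_eq_of_lt]
        rcases hcase with h | h <;> rw [h] at hdiv <;> omega
      have hmod : (p.val + 1) % M = p.val % M + 1 := by
        rw [Nat.add_mod]
        have h1 : 1 % M = 1 := Nat.mod_eq_of_lt (by omega)
        rw [h1, Nat.mod_eq_of_lt hr2]
      have hif : (p.val + 1 < M) ↔ (p.val < M) := by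
        rcases hcase with h | h <;> rw [h] at hdiv <;> omega
      simp only [loc]
      rw [hval, hmod, pow_succ']
      simp only [hif]
      rw [Equiv.Perm.mul_apply]
    · rw [hcard, div_le_div_iff₀ (by positivity) hM0]
      have h1 : (((Finset.univ.filter (fun z : (Fin (n+1) × Fin (n+1)) × Fin (2*M) => z.2.val % M ∈ ({M - 1} : Finset ℕ))).card : ℕ) : ℝ) ≤ (n + 1) * (n + 1) * 2 := by
        have h2 := card_prod_mod_le (Fin (n+1) × Fin (n+1)) 2 M {M - 1}
        rw [Fintype.card_prod, Fintype.card_fin, Finset.card_singleton] at h2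
        calc _ ≤ (((n+1) * (n+1) * (2 * 1) : ℕ) : ℝ) := by exact_mod_cast h2
          _ = _ := by push_cast; ring
      calc _ ≤ ((n:ℝ) + 1) * (n + 1) * 2 * M := by gcongr
        _ = _ := by ring
  · intro S S'
    -- the equivalence Φ
    let Φ : (Fin (n + 1) × Fin (n + 1)) × Fin (2 * M) ≃ (Fin (n + 1) × Fin (n + 1)) × Fin (2 * M) := 
      { toFun := fun z => if z.2.val < M then (((π ^ (z.2.val % M)) z.1.2, (π ^ (z.2.val % M)) z.1.1), z.2) 
          else (((π ^ (z.2.val % M)) z.1.1, (π ^ (z.2.val % M)) z.1.2), z.2)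
        invFun := fun z => if z.2.val < M then (((π ^ (z.2.val % M))⁻¹ z.1.2, (π ^ (z.2.val % M))⁻¹ z.1.1), z.2) 
          else (((π ^ (z.2.val % M))⁻¹ z.1.1, (π ^ (z.2.val % M))⁻¹ z.1.2), z.2)
        left_inv := fun z => by
          by_cases h : z.2.val < M
          · simp [h]
          · simp [h]
        right_inv := fun z => by
          by_cases h : z.2.val < M
          · simp [h]
          · simp [h] }
    have hu2 := hu.comp_equiv Φ
    have hset : T^[M] ⁻¹' (c ⁻¹' S) ∩ c ⁻¹' S' = 
        (fun x => Φ (c' x)) ⁻¹' ((((S.toFinset ×ˢ S'.toFinset) ×ˢ (Finset.univ : Finset (Fin (2*M)))) : Finset _) : Set _) := by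
      rw [hTS]
      ext x
      simp only [mem_inter_iff, mem_ofPred_eq, mem_preimage, Finset.mem_coe, Finset.mem_product, Finset.mem_univ, and_true, Set.mem_toFinset]
      rw [← hloc]
      obtain ⟨⟨b0, b1⟩, p⟩ := c' x
      have hpL := p.2
      by_cases h : p.val < M
      · have hval : ((rot (2*M))^[M] p).val = p.val + M := by
          rw [rot_iterate_val, Nat.mod_eq_of_lt (by omega)]
        have h2 : ¬ (p.val + M < M) := by omega
        simp only [loc, Φ, Equiv.coe_fn_mk, hval, h, h2, if_true, if_false, Nat.add_mod_right]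
      · have hval : ((rot (2*M))^[M] p).val = p.val - M := by
          rw [rot_iterate_val]
          have h3 : p.val + M = (p.val - M) + 2 * M := by omega
          rw [h3, Nat.add_mod_right, Nat.mod_eq_of_lt (by omega)]
        have h2 : p.val - M < M := by omega
        have h4 : (p.val - M) % M = p.val % M := by
          conv_rhs => rw [show p.val = (p.val - M) + M by omega, Nat.add_mod_right]
        simp only [loc, Φ, Equiv.coe_fn_mk, hval, h, h2, if_true, if_false, h4]
    rw [hset, hu2.measureReal, hcard]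
    have e1 : μ.real (c ⁻¹' S) = S.toFinset.card / (n + 1) := by
      have := hcu.measureReal S.toFinset
      rw [Set.coe_toFinset, Fintype.card_fin] at this
      rw [this]; push_cast; rfl
    have e2 : μ.real (c ⁻¹' S') = S'.toFinset.card / (n + 1) := by
      have := hcu.measureReal S'.toFinset
      rw [Set.coe_toFinset, Fintype.card_fin] at this
      rw [this]; push_cast; rfl
    rw [e1, e2, Finset.card_product, Finset.card_product, Finset.card_univ, Fintype.card_fin]
    push_cast
    field_simp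

end Pool.Agent.Lib.MP_5d8c24_an
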