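import Mathlib
import Pool.Agent.Lib.MP_5d8c24_an.TowerW

set_option linter.style.longLine false
set_option linter.unusedVariables false
set_option linter.unusedSectionVars false

open MeasureTheory Set Filter Topology
open scoped ENNReal symmDiff

namespace Pool.Agent.Lib.MP_5d8c24_an

variable {X : Type*} [mX : MeasurableSpace X]

/-- automorphisms -/
abbrev Aut (μ : Measure X) := {e : X ≃ᵐ X // MeasurePreserving e.toFun μ μ}

/-- weak topology -/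
instance wtop (μ : Measure X) : TopologicalSpace (Aut μ) := 
  ⨅ (A : Set X) (B : Set X) (_ : MeasurableSet A) (_ : MeasurableSet B),
            TopologicalSpace.induced
              (fun T : {e : X ≃ᵐ X // MeasurePreserving e.toFun μ μ} =>
                μ (symmDiff (Set.preimage T.1.toFun A) B))
              inferInstance

variable {μ : Measure X} [IsProbabilityMeasure μ]

lemma Aut.mp (T : Aut μ) : MeasurePreserving T.1 μ μ := T.2

lemma Aut.mp_iter (T : Aut μ) (j : ℕ) : MeasurePreserving T.1^[j] μ μ := T.mp.iterate j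

lemma cont_basic {A B : Set X} (hA : MeasurableSet A) (hB : MeasurableSet B) : 
    Continuous (fun T : Aut μ => μ ((T.1 ⁻¹' A) ∆ B)) := 
  continuous_iInf_dom (i := A) (continuous_iInf_dom (i := B) (continuous_iInf_dom (i := hA) 
    (continuous_iInf_dom (i := hB) continuous_induced_dom)))

lemma eventually_dd {A : Set X} (hA : MeasurableSet A) (T0 : Aut μ) {ε : ℝ} (hε : 0 < ε) : 
    ∀ᶠ T : Aut μ in 𝓝 T0, dd μ (T.1 ⁻¹' A) (T0.1 ⁻¹' A) < ε := by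
  have h := (cont_basic (μ := μ) hA (T0.mp.measurable hA)).tendsto T0
  rw [symmDiff_self] at h
  simp only [bot_eq_empty, measure_empty] at h
  filter_upwards [h.eventually_lt_const (ENNReal.ofReal_pos.mpr hε)] with T hT using dd_lt_of hT

lemma eventually_dd_iter {A : Set X} (hA : MeasurableSet A) (T0 : Aut μ) (j : ℕ) {ε : ℝ} (hε : 0 < ε) : 
    ∀ᶠ T : Aut μ in 𝓝 T0, dd μ (T.1^[j] ⁻¹' A) (T0.1^[j] ⁻¹' A) < ε := by
  induction j generalizing ε with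
  | zero => 
    filter_upwards with T
    simp only [Function.iterate_zero, preimage_id]
    rw [dd_self]; exact hε
  | succ j ih =>
    have h2 := eventually_dd ((T0.mp_iter j).measurable hA) T0 (half_pos hε)
    filter_upwards [ih (half_pos hε), h2] with T h3 h4
    have e1 : T.1^[j+1] ⁻¹' A = T.1 ⁻¹' (T.1^[j] ⁻¹' A) := by rw [Function.iterate_succ, preimage_comp]
    have e2 : T0.1^[j+1] ⁻¹' A = T0.1 ⁻¹' (T0.1^[j] ⁻¹' A) := by rw [Function.iterate_succ, preimage_comp]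
    rw [e1, e2]
    have h5 := dd_triangle (μ := μ) (T.1 ⁻¹' (T.1^[j] ⁻¹' A)) (T.1 ⁻¹' (T0.1^[j] ⁻¹' A)) (T0.1 ⁻¹' (T0.1^[j] ⁻¹' A))
    rw [dd_preimage T.mp ((T.mp_iter j).measurable hA) ((T0.mp_iter j).measurable hA)] at h5
    linarith

lemma tendsto_of_forall {u : ℕ → Aut μ} {T0 : Aut μ} 
    (h : ∀ A, MeasurableSet A → ∀ ε : ℝ, 0 < ε → ∀ᶠ j in atTop, dd μ ((u j).1 ⁻¹' A) (T0.1 ⁻¹' A) < ε) : 
    Tendsto u atTop (𝓝 T0) := by
  have key : ∀ (A B : Set X), MeasurableSet A → MeasurableSet B → 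
      Tendsto (fun j => μ (((u j).1 ⁻¹' A) ∆ B)) atTop (𝓝 (μ ((T0.1 ⁻¹' A) ∆ B))) := by
    intro A B hA hB
    rw [← ENNReal.tendsto_toReal_iff (fun j => measure_ne_top _ _) (measure_ne_top _ _), Metric.tendsto_atTop']
    intro ε hε
    obtain ⟨N, hN⟩ := eventually_atTop.mp (h A hA ε hε)
    refine ⟨N, fun j hj => ?_⟩
    refine lt_of_le_of_lt ?_ (hN j hj.le)
    have h1 := abs_measure_sub_le (μ := μ) (((u j).1 ⁻¹' A) ∆ B) ((T0.1 ⁻¹' A) ∆ B)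
    have h2 : dd μ (((u j).1 ⁻¹' A) ∆ B) ((T0.1 ⁻¹' A) ∆ B) = dd μ ((u j).1 ⁻¹' A) (T0.1 ⁻¹' A) := by
      unfold dd
      congr 1
      rw [symmDiff_comm (T0.1 ⁻¹' A) B, symmDiff_assoc, ← symmDiff_assoc B B, symmDiff_self, bot_symmDiff]
    rw [h2] at h1
    exact h1
  rw [nhds_iInf, tendsto_iInf]
  intro A
  rw [nhds_iInf, tendsto_iInf]
  intro B
  rw [nhds_iInf, tendsto_iInf]
  intro hA
  rw [nhds_iInf, tendsto_iInf]
  intro hB
  rw [nhds_induced, tendsto_comap_iff]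
  exact key A B hA hB

/-- a dense sequence of measurable sets -/
lemma exists_dense_seq [StandardBorelSpace X] (μ : Measure X) [IsProbabilityMeasure μ] : 
    ∃ A : ℕ → Set X, (∀ m, MeasurableSet (A m)) ∧ ∀ B, MeasurableSet B → ∀ ε : ℝ, 0 < ε → ∃ m, dd μ B (A m) < ε := by
  have : IsSeparable μ := isSeparable_of_sigmaFinite μ
  obtain ⟨𝒜, hc, hd⟩ := exists_countable_measureDense μ
  obtain ⟨A, hA⟩ := hc.exists_eq_range hd.nonempty
  refine ⟨A, ?_, ?_⟩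
  · intro m
    apply hd.measurable
    rw [hA]; exact ⟨m, rfl⟩
  · intro B hB ε hε
    obtain ⟨t, ht, h⟩ := hd.approx B hB (measure_ne_top _ _) ε hε
    rw [hA] at ht
    obtain ⟨m, rfl⟩ := ht
    exact ⟨m, dd_lt_of h⟩

section gen

variable {A : ℕ → Set X} (hA : ∀ m, MeasurableSet (A m)) 
  (hAd : ∀ B, MeasurableSet B → ∀ ε : ℝ, 0 < ε → ∃ m, dd μ B (A m) < ε)

include hA hAd in
lemma tendsto_of_dense {u : ℕ → Aut μ} {T0 : Aut μ} 
    (h : ∀ m, ∀ ε : ℝ, 0 < ε → ∀ᶠ j in atTop, dd μ ((u j).1 ⁻¹' (A m)) (T0.1 ⁻¹' (A m)) < ε) : 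
    Tendsto u atTop (𝓝 T0) := by
  apply tendsto_of_forall
  intro B hB ε hε
  obtain ⟨m, hm⟩ := hAd B hB (ε / 3) (by positivity)
  filter_upwards [h m (ε / 3) (by positivity)] with j hj
  have h1 := dd_triangle (μ := μ) ((u j).1 ⁻¹' B) ((u j).1 ⁻¹' (A m)) (T0.1 ⁻¹' B)
  have h2 := dd_triangle (μ := μ) ((u j).1 ⁻¹' (A m)) (T0.1 ⁻¹' (A m)) (T0.1 ⁻¹' B)
  rw [dd_preimage (u j).mp hB (hA m)] at h1
  rw [dd_preimage T0.mp (hA m) hB, dd_comm (A m) B] at h2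
  linarith

lemma isOpen_dd {B C : Set X} (hB : MeasurableSet B) (hC : MeasurableSet C) (i j : ℕ) (δ : ℝ) : 
    IsOpen {T : Aut μ | dd μ (T.1^[i] ⁻¹' B) (T.1^[j] ⁻¹' C) < δ} := by
  rw [isOpen_iff_mem_nhds]
  intro T0 hT0
  have hT0' : dd μ (T0.1^[i] ⁻¹' B) (T0.1^[j] ⁻¹' C) < δ := hT0
  have hgap : 0 < (δ - dd μ (T0.1^[i] ⁻¹' B) (T0.1^[j] ⁻¹' C)) / 2 := by linarith
  filter_upwards [eventually_dd_iter hB T0 i hgap, eventually_dd_iter hC T0 j hgap] with T h1 h2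
  have h3 := dd_triangle (μ := μ) (T.1^[i] ⁻¹' B) (T0.1^[i] ⁻¹' B) (T.1^[j] ⁻¹' C)
  have h4 := dd_triangle (μ := μ) (T0.1^[i] ⁻¹' B) (T0.1^[j] ⁻¹' C) (T.1^[j] ⁻¹' C)
  rw [dd_comm (T0.1^[j] ⁻¹' C)] at h4
  change dd μ (T.1^[i] ⁻¹' B) (T.1^[j] ⁻¹' C) < δ
  linarith

lemma isOpen_mix {B C : Set X} (hB : MeasurableSet B) (hC : MeasurableSet C) (i : ℕ) (r ε : ℝ) : 
    IsOpen {T : Aut μ | |μ.real (T.1^[i] ⁻¹' B ∩ C) - r| < ε} := by
  rw [isOpen_iff_mem_nhds]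
  intro T0 hT0
  have hT0' : |μ.real (T0.1^[i] ⁻¹' B ∩ C) - r| < ε := hT0
  have hgap : 0 < ε - |μ.real (T0.1^[i] ⁻¹' B ∩ C) - r| := by linarith
  filter_upwards [eventually_dd_iter hB T0 i hgap] with T h1
  have h3 := dd_inter (μ := μ) (T.1^[i] ⁻¹' B) C (T0.1^[i] ⁻¹' B) C
  rw [dd_self, add_zero] at h3
  have h4 := abs_measure_sub_le (μ := μ) (T.1^[i] ⁻¹' B ∩ C) (T0.1^[i] ⁻¹' B ∩ C)
  have h5 : |μ.real (T.1^[i] ⁻¹' B ∩ C) - r| ≤ |μ.real (T.1^[i] ⁻¹' B ∩ C) - μ.real (T0.1^[i] ⁻¹' B ∩ C)| + 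
      |μ.real (T0.1^[i] ⁻¹' B ∩ C) - r| := abs_sub_le _ _ _
  change |μ.real (T.1^[i] ⁻¹' B ∩ C) - r| < ε
  linarith

end gen

end Pool.Agent.Lib.MP_5d8c24_an
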