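import Mathlib
import Pool.Agent.Lib.MP_5d8c24_an.WeakTop

set_option linter.style.longLine false
set_option linter.unusedVariables false
set_option linter.unusedSectionVars false

open MeasureTheory Set Filter Topology
open scoped ENNReal symmDiff

namespace Pool.Agent.Lib.MP_5d8c24_an

variable {X : Type*} [mX : MeasurableSpace X] [StandardBorelSpace X] {μ : Measure X} [IsProbabilityMeasure μ] [NullSingletonClass μ]

/-- mixing at some time -/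
def GW (μ : Measure X) (A : ℕ → Set X) (k : ℕ) (ε : ℝ) : Set (Aut μ) := 
  {T | ∃ n, ∀ i < k, ∀ j < k, |μ.real (T.1^[n] ⁻¹' A i ∩ A j) - μ.real (A i) * μ.real (A j)| < ε}

/-- rigidity time -/
def GR (μ : Measure X) (A : ℕ → Set X) (k : ℕ) (δ : ℝ) : Set (Aut μ) := 
  {T | ∃ q, 0 < q ∧ ∀ m < k, dd μ (T.1^[q] ⁻¹' A m) (A m) < δ}

def O1 (μ : Measure X) (A : ℕ → Set X) (n k : ℕ) (δ : ℝ) : Set (Aut μ) := 
  {T | ∀ m < k, dd μ (T.1^[n] ⁻¹' A m) (A m) < δ}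

def O2 (μ : Measure X) (A : ℕ → Set X) (n q k : ℕ) (δ : ℝ) (k' : ℕ) (δ' : ℝ) : Set (Aut μ) := 
  {T | ∃ n', (∀ m < k, dd μ (T.1^[n'] ⁻¹' A m) (T.1^[n] ⁻¹' A m) < 2 * δ) ∧ ∀ m < k', dd μ (T.1^[n' * q] ⁻¹' A m) (A m) < δ'}

lemma isOpen_forall_lt {Y : Type*} [TopologicalSpace Y] {k : ℕ} {P : ℕ → Set Y} (h : ∀ m, IsOpen (P m)) : 
    IsOpen {T : Y | ∀ m < k, T ∈ P m} := by
  have : {T : Y | ∀ m < k, T ∈ P m} = ⋂ m ∈ Finset.range k, P m := by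
    ext T; simp
  rw [this]
  exact isOpen_biInter_finset (fun m _ => h m)

section open_sets
variable {A : ℕ → Set X} (hA : ∀ m, MeasurableSet (A m)) 
include hA

lemma isOpen_O1 (n k : ℕ) (δ : ℝ) : IsOpen (O1 μ A n k δ) := by
  apply isOpen_forall_lt (P := fun m => {T : Aut μ | dd μ (T.1^[n] ⁻¹' A m) (A m) < δ})
  intro m
  have := isOpen_dd (μ := μ) (hA m) (hA m) n 0 δ
  simpa using this

lemma isOpen_GR (k : ℕ) (δ : ℝ) : IsOpen (GR μ A k δ) := by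
  have : GR μ A k δ = ⋃ q : ℕ, ⋃ (_ : 0 < q), O1 μ A q k δ := by
    ext T
    simp only [GR, O1, mem_ofPred_eq, mem_iUnion, exists_prop]
  rw [this]
  exact isOpen_iUnion fun q => isOpen_iUnion fun _ => isOpen_O1 hA q k δ

lemma isOpen_GW (k : ℕ) (ε : ℝ) : IsOpen (GW μ A k ε) := by
  have : GW μ A k ε = ⋃ n : ℕ, {T : Aut μ | ∀ i < k, T ∈ {T : Aut μ | ∀ j < k, T ∈ {T : Aut μ | |μ.real (T.1^[n] ⁻¹' A i ∩ A j) - μ.real (A i) * μ.real (A j)| < ε}}} := by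
    ext T
    simp only [GW, mem_ofPred_eq, mem_iUnion]
  rw [this]
  apply isOpen_iUnion
  intro n
  apply isOpen_forall_lt
  intro i
  apply isOpen_forall_lt
  intro j
  exact isOpen_mix (hA i) (hA j) n _ ε

lemma isOpen_O2 (n q k : ℕ) (δ : ℝ) (k' : ℕ) (δ' : ℝ) : IsOpen (O2 μ A n q k δ k' δ') := by
  have : O2 μ A n q k δ k' δ' = ⋃ n' : ℕ, ({T : Aut μ | ∀ m < k, T ∈ {T : Aut μ | dd μ (T.1^[n'] ⁻¹' A m) (T.1^[n] ⁻¹' A m) < 2 * δ}} ∩ O1 μ A (n' * q) k' δ') := by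
    ext T
    simp only [O2, O1, mem_ofPred_eq, mem_iUnion, mem_inter_iff]
  rw [this]
  apply isOpen_iUnion
  intro n'
  apply IsOpen.inter _ (isOpen_O1 hA _ _ _)
  apply isOpen_forall_lt
  intro m
  exact isOpen_dd (hA m) (hA m) n' n _

end open_sets

section dense_sets
variable {A : ℕ → Set X} (hA : ∀ m, MeasurableSet (A m)) 
  (hAd : ∀ B, MeasurableSet B → ∀ ε : ℝ, 0 < ε → ∃ m, dd μ B (A m) < ε)
  {c : (n : ℕ) → X → Fin (n + 1)} 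
  (hc1 : ∀ A, MeasurableSet A → ∀ ε : ℝ, 0 < ε → ∀ᶠ n in atTop, ∃ S : Set (Fin (n + 1)), dd μ A (c n ⁻¹' S) < ε)
  (hc2 : ∀ n, ∀ (Q : Type) [Fintype Q] [Nonempty Q], ∃ c' : X → Fin (n + 1) × Q, Unif μ c' ∧ ∀ x, (c' x).1 = c n x)

/-- periodic type automorphisms of quality `j` -/
structure PT (μ : Measure X) (A : ℕ → Set X) (c : (n : ℕ) → X → Fin (n + 1)) (j : ℕ) (T : Aut μ) (n : ℕ) (π : Equiv.Perm (Fin (n + 1))) : Prop where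
  comm : ∀ x, c n (T.1 x) = π (c n x)
  app : ∀ m < j, ∃ S : Set (Fin (n + 1)), dd μ (A m) (c n ⁻¹' S) < 1 / ((j:ℝ) + 1)

include hA hAd hc1 hc2 in
/-- main density tool -/
lemma closure_tool {V : Set (Aut μ)} (hV : IsOpen V) {W : Set (Aut μ)} 
    (h : ∃ J : ℕ, ∀ j ≥ J, ∀ (T2 : Aut μ) n π, PT μ A c j T2 n π → T2 ∈ V → ∃ T ∈ W, ∀ m < j, dd μ (T.1 ⁻¹' (A m)) (T2.1 ⁻¹' (A m)) ≤ 3 / ((j:ℝ) + 1)) : 
    V ⊆ closure W := by
  intro T0 hT0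
  have hh : ∀ j : ℕ, ∃ (n : ℕ) (π : Equiv.Perm (Fin (n + 1))) (T : Aut μ), PT μ A c j T n π ∧ 
      ∀ m < j, dd μ (T.1 ⁻¹' (A m)) (T0.1 ⁻¹' (A m)) < 1 / ((j:ℝ) + 1) := by
    intro j
    obtain ⟨n, π, T, hT, h1, h2, h3⟩ := halmos μ hc1 hc2 T0.mp A hA j (show (0:ℝ) < 1 / ((j:ℝ) + 1) by positivity)
    exact ⟨n, π, ⟨T, hT⟩, ⟨h1, h2⟩, h3⟩
  choose n π T2 hPT hT2 using hh
  have hlim : ∀ C : ℝ, ∀ ε : ℝ, 0 < ε → ∀ᶠ j : ℕ in atTop, C / ((j:ℝ) + 1) < ε := by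
    intro C ε hε
    have h1 : Tendsto (fun j : ℕ => C / ((j:ℝ) + 1)) atTop (𝓝 0) := by
      have := (tendsto_one_div_add_atTop_nhds_zero_nat (𝕜 := ℝ)).const_mul C
      rw [mul_zero] at this
      refine this.congr fun j => ?_
      ring
    exact h1.eventually_lt_const hε
  have hconv : Tendsto T2 atTop (𝓝 T0) := by
    apply tendsto_of_dense hA hAd
    intro m ε hε
    filter_upwards [hlim 1 ε hε, eventually_gt_atTop m] with j h1 h2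
    exact (hT2 j m h2).trans h1
  have hev : ∀ᶠ j in atTop, T2 j ∈ V := hconv.eventually (hV.mem_nhds hT0)
  obtain ⟨J, hJ⟩ := h
  have hex : ∀ j, ∃ T : Aut μ, (T2 j ∈ V → j ≥ J → T ∈ W ∧ ∀ m < j, dd μ (T.1 ⁻¹' (A m)) ((T2 j).1 ⁻¹' (A m)) ≤ 3 / ((j:ℝ) + 1)) := by
    intro j
    by_cases h1 : T2 j ∈ V ∧ j ≥ J
    · obtain ⟨T, hT, hT'⟩ := hJ j h1.2 (T2 j) (n j) (π j) (hPT j) h1.1
      exact ⟨T, fun _ _ => ⟨hT, hT'⟩⟩
    · exact ⟨T0, fun h2 h3 => absurd ⟨h2, h3⟩ h1⟩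
  choose T hT using hex
  have hconv2 : Tendsto T atTop (𝓝 T0) := by
    apply tendsto_of_dense hA hAd
    intro m ε hε
    filter_upwards [hlim 1 (ε/2) (half_pos hε), hlim 3 (ε/2) (half_pos hε), eventually_gt_atTop m, hev, eventually_ge_atTop J] with j h1 h1' h2 h3 h4
    have h5 := (hT j h3 h4).2 m h2
    have h6 := hT2 j m h2
    have h7 := dd_triangle (μ := μ) ((T j).1 ⁻¹' (A m)) ((T2 j).1 ⁻¹' (A m)) (T0.1 ⁻¹' (A m))
    linarith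
  apply mem_closure_of_tendsto hconv2
  filter_upwards [hev, eventually_ge_atTop J] with j h3 h4
  exact (hT j h3 h4).1

lemma Unif_of_hc2 {n : ℕ} {c : X → Fin (n + 1)} 
    (hc2 : ∀ (Q : Type) [Fintype Q] [Nonempty Q], ∃ c' : X → Fin (n + 1) × Q, Unif μ c' ∧ ∀ x, (c' x).1 = c x) : Unif μ c := by
  obtain ⟨c', hc', hc'1⟩ := hc2 Unit
  have h2 := hc'.comp_equiv (Equiv.prodPUnit (Fin (n+1)))
  have h3 : (fun x => (Equiv.prodPUnit (Fin (n+1))) (c' x)) = c := by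
    funext x
    exact hc'1 x
  rwa [h3] at h2

include hA hAd hc1 hc2 in
lemma dense_GR (k : ℕ) {δ : ℝ} (hδ : 0 < δ) : Dense (GR μ A k δ) := by
  intro T0
  apply closure_tool hA hAd hc1 hc2 isOpen_univ _ (mem_univ T0)
  obtain ⟨J0, hJ0⟩ := exists_nat_gt (2 / δ)
  refine ⟨max J0 k, ?_⟩
  intro j hj T2 n π hPT _
  have hcu := Unif_of_hc2 (hc2 n)
  refine ⟨T2, ⟨orderOf π, orderOf_pos π, ?_⟩, ?_⟩
  · intro m hm
    obtain ⟨S, hS⟩ := hPT.app m (lt_of_lt_of_le hm ((le_max_right _ _).trans hj))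
    have hper : T2.1^[orderOf π] ⁻¹' (c n ⁻¹' S) = c n ⁻¹' S := by
      ext x
      simp only [mem_preimage]
      rw [iterate_realize hPT.comm, Equiv.Perm.iterate_eq_pow, pow_orderOf_eq_one]
      rfl
    have h1 := dd_triangle (μ := μ) (T2.1^[orderOf π] ⁻¹' (A m)) (T2.1^[orderOf π] ⁻¹' (c n ⁻¹' S)) (A m)
    rw [dd_preimage (T2.mp_iter _) (hA m) (hcu.measurableSet S), hper, dd_comm (c n ⁻¹' S)] at h1
    have h2 : 2 / ((j:ℝ) + 1) < δ := by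
      have h3 : (J0:ℝ) ≤ j := by exact_mod_cast (le_max_left _ _).trans hj
      rw [div_lt_iff₀ (by positivity)]
      rw [div_lt_iff₀ hδ] at hJ0
      nlinarith
    have h4 : 2 / ((j:ℝ) + 1) = 1 / ((j:ℝ) + 1) + 1 / ((j:ℝ) + 1) := by ring
    linarith
  · intro m hm
    rw [dd_self]; positivity

include hA hAd hc1 hc2 in
lemma dense_GW (k : ℕ) {δ : ℝ} (hδ : 0 < δ) : Dense (GW μ A k δ) := by
  intro T0
  apply closure_tool hA hAd hc1 hc2 isOpen_univ _ (mem_univ T0)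
  obtain ⟨J0, hJ0⟩ := exists_nat_gt (4 / δ)
  refine ⟨max J0 k, ?_⟩
  intro j hj T2 n π hPT _
  have hcu := Unif_of_hc2 (hc2 n)
  obtain ⟨T, hT, hT1, hT2⟩ := towerW μ (hc2 n) hcu π hPT.comm (j+1) (Nat.succ_pos j)
  set T' : Aut μ := ⟨T, hT⟩ with hT'
  set η : ℝ := 1 / ((j:ℝ) + 1) with hη
  refine ⟨T', ⟨j+1, ?_⟩, ?_⟩
  · intro i hi i' hi'
    obtain ⟨S, hS⟩ := hPT.app i (lt_of_lt_of_le hi ((le_max_right _ _).trans hj))
    obtain ⟨S', hS'⟩ := hPT.app i' (lt_of_lt_of_le hi' ((le_max_right _ _).trans hj))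
    have h1 := hT2 S S'
    have h2 := abs_measure_sub_le (μ := μ) (T^[j+1] ⁻¹' (A i) ∩ A i') (T^[j+1] ⁻¹' (c n ⁻¹' S) ∩ c n ⁻¹' S')
    have h3 := dd_inter (μ := μ) (T^[j+1] ⁻¹' (A i)) (A i') (T^[j+1] ⁻¹' (c n ⁻¹' S)) (c n ⁻¹' S')
    rw [dd_preimage (T'.mp_iter _) (hA i) (hcu.measurableSet S)] at h3
    have h4 := abs_measure_sub_le (μ := μ) (A i) (c n ⁻¹' S)
    have h5 := abs_measure_sub_le (μ := μ) (A i') (c n ⁻¹' S')
    have h6 : μ.real (A i') ≤ 1 := measureReal_le_one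
    have h7 : μ.real (c n ⁻¹' S) ≤ 1 := measureReal_le_one
    have h6' : 0 ≤ μ.real (A i') := measureReal_nonneg
    have h7' : 0 ≤ μ.real (c n ⁻¹' S) := measureReal_nonneg
    have h8 : |μ.real (c n ⁻¹' S) * μ.real (c n ⁻¹' S') - μ.real (A i) * μ.real (A i')| ≤ 
        dd μ (A i) (c n ⁻¹' S) + dd μ (A i') (c n ⁻¹' S') := by
      rw [abs_le] at h4 h5 ⊢
      constructor <;> nlinarith
    have h9 : |μ.real (T^[j+1] ⁻¹' (A i) ∩ A i') - μ.real (A i) * μ.real (A i')| ≤ 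
        |μ.real (T^[j+1] ⁻¹' (A i) ∩ A i') - μ.real (T^[j+1] ⁻¹' (c n ⁻¹' S) ∩ c n ⁻¹' S')| + 
        |μ.real (T^[j+1] ⁻¹' (c n ⁻¹' S) ∩ c n ⁻¹' S') - μ.real (A i) * μ.real (A i')| := abs_sub_le _ _ _
    rw [h1] at h9 h2
    have h10 : 4 / ((j:ℝ) + 1) < δ := by
      have h3 : (J0:ℝ) ≤ j := by exact_mod_cast (le_max_left _ _).trans hj
      rw [div_lt_iff₀ (by positivity)]
      rw [div_lt_iff₀ hδ] at hJ0
      nlinarith
    have h11 : 4 / ((j:ℝ) + 1) = 4 * η := by rw [hη]; ring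
    change |μ.real (T^[j+1] ⁻¹' (A i) ∩ A i') - μ.real (A i) * μ.real (A i')| < δ
    linarith
  · intro m hm
    obtain ⟨S, hS⟩ := hPT.app m hm
    have h1 := hT1 S
    have h2 := dd_triangle (μ := μ) (T ⁻¹' (A m)) (T ⁻¹' (c n ⁻¹' S)) (T2.1 ⁻¹' (A m))
    have h3 := dd_triangle (μ := μ) (T ⁻¹' (c n ⁻¹' S)) (T2.1 ⁻¹' (c n ⁻¹' S)) (T2.1 ⁻¹' (A m))
    rw [dd_preimage hT (hA m) (hcu.measurableSet S)] at h2
    rw [dd_preimage T2.mp (hcu.measurableSet S) (hA m), dd_comm (c n ⁻¹' S)] at h3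
    have h4 : 3 / ((j:ℝ) + 1) = 3 * η := by rw [hη]; ring
    rw [h4]
    have h5 : (1:ℝ) / ((j+1 : ℕ) : ℝ) = η := by rw [hη]; push_cast; rfl
    rw [h5] at h1
    change dd μ (T ⁻¹' (A m)) (T2.1 ⁻¹' (A m)) ≤ 3 * η
    linarith

include hA hAd hc1 hc2 in
lemma O1_sub_closure_O2 (n0 q k : ℕ) (hq : 0 < q) {δ : ℝ} (hδ : 0 < δ) (k' : ℕ) {δ' : ℝ} (hδ' : 0 < δ') : 
    O1 μ A (n0 * q) k δ ⊆ closure (O2 μ A n0 q k δ k' δ') := by
  apply closure_tool hA hAd hc1 hc2 (isOpen_O1 hA (n0 * q) k δ)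
  obtain ⟨J0, hJ0⟩ := exists_nat_gt (5 / δ)
  obtain ⟨J1, hJ1⟩ := exists_nat_gt (2 / δ')
  refine ⟨max (max J0 J1) (max k k'), ?_⟩
  intro j hj T2 n π hPT hT2O
  have hcu := Unif_of_hc2 (hc2 n)
  set M : ℕ := (j + 1) * (n0 + 1) with hM
  have hM0 : 0 < M := by positivity
  obtain ⟨T, hT, hT1, hT2, hT3⟩ := towerD μ (hc2 n) hcu π hPT.comm n0 q M hq hM0
  set T' : Aut μ := ⟨T, hT⟩ with hT'
  set η : ℝ := 1 / ((j:ℝ) + 1) with hη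
  have hη0 : 0 < η := by positivity
  have hMr : (M:ℝ) = ((j:ℝ) + 1) * (n0 + 1) := by rw [hM]; push_cast; ring
  have hM1 : 1 / (M:ℝ) ≤ η := by
    rw [hMr, hη]
    apply one_div_le_one_div_of_le (by positivity)
    have : (0:ℝ) ≤ n0 := Nat.cast_nonneg _
    have : (0:ℝ) ≤ j := Nat.cast_nonneg _
    nlinarith
  have hM2 : (n0:ℝ) / M ≤ η := by
    rw [hMr, hη, div_le_div_iff₀ (by positivity) (by positivity)]
    have : (0:ℝ) ≤ n0 := Nat.cast_nonneg _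
    have : (0:ℝ) ≤ j := Nat.cast_nonneg _
    nlinarith
  have hδ5 : 5 * η < δ := by
    have h3 : (J0:ℝ) ≤ j := by exact_mod_cast (le_max_left _ _).trans ((le_max_left _ _).trans hj)
    rw [hη, mul_one_div, div_lt_iff₀ (by positivity)]
    rw [div_lt_iff₀ hδ] at hJ0
    nlinarith
  have hδ2 : 2 * η < δ' := by
    have h3 : (J1:ℝ) ≤ j := by exact_mod_cast (le_max_right _ _).trans ((le_max_left _ _).trans hj)
    rw [hη, mul_one_div, div_lt_iff₀ (by positivity)]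
    rw [div_lt_iff₀ hδ'] at hJ1
    nlinarith
  refine ⟨T', ⟨M, ?_, ?_⟩, ?_⟩
  · intro m hm
    obtain ⟨S, hS⟩ := hPT.app m (lt_of_lt_of_le hm ((le_max_left _ _).trans ((le_max_right _ _).trans hj)))
    have h1 := hT2 S
    have h2 := dd_triangle (μ := μ) (T^[M] ⁻¹' (A m)) (T^[M] ⁻¹' (c n ⁻¹' S)) (T^[n0] ⁻¹' (A m))
    have h3 := dd_triangle (μ := μ) (T^[M] ⁻¹' (c n ⁻¹' S)) (T^[n0] ⁻¹' (c n ⁻¹' S)) (T^[n0] ⁻¹' (A m))
    rw [dd_preimage (T'.mp_iter _) (hA m) (hcu.measurableSet S)] at h2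
    rw [dd_preimage (T'.mp_iter _) (hcu.measurableSet S) (hA m), dd_comm (c n ⁻¹' S)] at h3
    have h4 := hT2O m hm
    have h5 := dd_triangle (μ := μ) (c n ⁻¹' S) (A m) (T2.1^[n0 * q] ⁻¹' (c n ⁻¹' S))
    have h6 := dd_triangle (μ := μ) (A m) (T2.1^[n0 * q] ⁻¹' (A m)) (T2.1^[n0 * q] ⁻¹' (c n ⁻¹' S))
    rw [dd_comm (c n ⁻¹' S) (A m)] at h5
    rw [dd_preimage (T2.mp_iter _) (hA m) (hcu.measurableSet S), dd_comm (A m) (T2.1^[n0 * q] ⁻¹' (A m))] at h6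
    change dd μ (T^[M] ⁻¹' (A m)) (T^[n0] ⁻¹' (A m)) < 2 * δ
    linarith
  · intro m hm
    obtain ⟨S, hS⟩ := hPT.app m (lt_of_lt_of_le hm ((le_max_right _ _).trans ((le_max_right _ _).trans hj)))
    have h1 := hT3 S
    have h2 := dd_triangle (μ := μ) (T^[M * q] ⁻¹' (A m)) (T^[M * q] ⁻¹' (c n ⁻¹' S)) (A m)
    have h3 := dd_triangle (μ := μ) (T^[M * q] ⁻¹' (c n ⁻¹' S)) (c n ⁻¹' S) (A m)
    rw [dd_preimage (T'.mp_iter _) (hA m) (hcu.measurableSet S)] at h2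
    rw [dd_comm (c n ⁻¹' S) (A m)] at h3
    change dd μ (T^[M * q] ⁻¹' (A m)) (A m) < δ'
    linarith
  · intro m hm
    obtain ⟨S, hS⟩ := hPT.app m hm
    have h1 := hT1 S
    have h2 := dd_triangle (μ := μ) (T ⁻¹' (A m)) (T ⁻¹' (c n ⁻¹' S)) (T2.1 ⁻¹' (A m))
    have h3 := dd_triangle (μ := μ) (T ⁻¹' (c n ⁻¹' S)) (T2.1 ⁻¹' (c n ⁻¹' S)) (T2.1 ⁻¹' (A m))
    rw [dd_preimage hT (hA m) (hcu.measurableSet S)] at h2
    rw [dd_preimage T2.mp (hcu.measurableSet S) (hA m), dd_comm (c n ⁻¹' S)] at h3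
    have h4 : 3 / ((j:ℝ) + 1) = 3 * η := by rw [hη]; ring
    rw [h4]
    change dd μ (T ⁻¹' (A m)) (T2.1 ⁻¹' (A m)) ≤ 3 * η
    linarith

end dense_sets

end Pool.Agent.Lib.MP_5d8c24_an
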