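import Mathlib
import Pool.Agent.Lib.MP_5d8c24_an.Dense

set_option linter.style.longLine false
set_option linter.unusedVariables false
set_option linter.unusedSectionVars false

open MeasureTheory Set Filter Topology
open scoped ENNReal symmDiff

namespace Pool.Agent.Lib.MP_5d8c24_an

variable {X : Type*} [mX : MeasurableSpace X] 

/-- the generic properties used -/
structure Gen (μ : Measure X) (A : ℕ → Set X) (T : Aut μ) : Prop where
  mix : ∀ k l : ℕ, T ∈ GW μ A k (1 / ((l:ℝ) + 1))
  rig : ∀ k l : ℕ, T ∈ GR μ A k (1 / ((l:ℝ) + 1))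
  chain : ∀ n q k l k' l' : ℕ, 0 < q → T ∈ O1 μ A (n * q) k (1 / ((l:ℝ) + 1)) → 
    T ∈ O2 μ A n q k (1 / ((l:ℝ) + 1)) k' (1 / ((l':ℝ) + 1))

theorem residual_Gen [StandardBorelSpace X] (μ : Measure X) [IsProbabilityMeasure μ] [NullSingletonClass μ] 
    {A : ℕ → Set X} (hA : ∀ m, MeasurableSet (A m)) 
    (hAd : ∀ B, MeasurableSet B → ∀ ε : ℝ, 0 < ε → ∃ m, dd μ B (A m) < ε) : 
    ∀ᶠ T : Aut μ in residual (Aut μ), Gen μ A T := by
  obtain ⟨c, hc1, hc2⟩ := exists_cells μ
  have h1 : ∀ᶠ T : Aut μ in residual (Aut μ), ∀ k l : ℕ, T ∈ GW μ A k (1 / ((l:ℝ) + 1)) := by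
    rw [eventually_countable_forall]; intro k
    rw [eventually_countable_forall]; intro l
    exact residual_of_dense_open (isOpen_GW hA k _) (dense_GW hA hAd hc1 hc2 k (by positivity))
  have h2 : ∀ᶠ T : Aut μ in residual (Aut μ), ∀ k l : ℕ, T ∈ GR μ A k (1 / ((l:ℝ) + 1)) := by
    rw [eventually_countable_forall]; intro k
    rw [eventually_countable_forall]; intro l
    exact residual_of_dense_open (isOpen_GR hA k _) (dense_GR hA hAd hc1 hc2 k (by positivity))
  have h3 : ∀ᶠ T : Aut μ in residual (Aut μ), ∀ n q k l k' l' : ℕ, 0 < q → T ∈ O1 μ A (n * q) k (1 / ((l:ℝ) + 1)) → 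
      T ∈ O2 μ A n q k (1 / ((l:ℝ) + 1)) k' (1 / ((l':ℝ) + 1)) := by
    rw [eventually_countable_forall]; intro n
    rw [eventually_countable_forall]; intro q
    rw [eventually_countable_forall]; intro k
    rw [eventually_countable_forall]; intro l
    rw [eventually_countable_forall]; intro k'
    rw [eventually_countable_forall]; intro l'
    by_cases hq : 0 < q
    · have hsub := O1_sub_closure_O2 (μ := μ) hA hAd hc1 hc2 n q k hq (δ := 1 / ((l:ℝ) + 1)) (by positivity) k' (δ' := 1 / ((l':ℝ) + 1)) (by positivity)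
      set W := O2 μ A n q k (1 / ((l:ℝ) + 1)) k' (1 / ((l':ℝ) + 1)) with hW
      have hWo : IsOpen W := isOpen_O2 hA n q k _ k' _
      have hopen : IsOpen (W ∪ (closure W)ᶜ) := hWo.union isClosed_closure.isOpen_compl
      have hdense : Dense (W ∪ (closure W)ᶜ) := by
        intro T
        by_cases hT : T ∈ closure W
        · exact closure_mono subset_union_left hT
        · exact subset_closure (Or.inr hT)
      filter_upwards [residual_of_dense_open hopen hdense] with T hT _ hT1
      rcases hT with h | h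
      · exact h
      · exact absurd (hsub hT1) h
    · filter_upwards with T h
      exact absurd h hq
  filter_upwards [h1, h2, h3] with T h4 h5 h6 using ⟨h4, h5, h6⟩

/-- sub-sigma-algebras as predicates -/
structure SA (M : Set X → Prop) : Prop where
  empty : M ∅
  compl : ∀ s, M s → M sᶜ
  iUnion : ∀ f : ℕ → Set X, (∀ i, M (f i)) → M (⋃ i, f i)
  meas : ∀ s, M s → MeasurableSet s

lemma SA.iInter {M : Set X → Prop} (h : SA M) (f : ℕ → Set X) (hf : ∀ i, M (f i)) : M (⋂ i, f i) := by
  have := h.compl _ (h.iUnion (fun i => (f i)ᶜ) (fun i => h.compl _ (hf i)))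
  simpa using this

lemma SA.union {M : Set X → Prop} (h : SA M) {s t : Set X} (hs : M s) (ht : M t) : M (s ∪ t) := by
  have := h.iUnion (fun i => if i = 0 then s else t) (fun i => by split_ifs <;> assumption)
  convert this using 1
  ext x
  simp only [mem_union, mem_iUnion]
  constructor
  · rintro (h1 | h1)
    · exact ⟨0, by simpa using h1⟩
    · exact ⟨1, by simpa using h1⟩
  · rintro ⟨i, hi⟩
    by_cases h0 : i = 0
    · left; simpa [h0] using hi
    · right; simpa [h0] using hi

lemma SA.inter {M : Set X → Prop} (h : SA M) {s t : Set X} (hs : M s) (ht : M t) : M (s ∩ t) := by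
  have := h.compl _ (h.union (h.compl _ hs) (h.compl _ ht))
  rwa [compl_union, compl_compl, compl_compl] at this

lemma SA.biUnion {M : Set X → Prop} (h : SA M) (q : ℕ) {f : ℕ → Set X} (hf : ∀ i, M (f i)) : M (⋃ j ∈ Finset.range q, f j) := by
  induction q with
  | zero => simpa using h.empty
  | succ q ih => 
    rw [Finset.range_add_one, Finset.set_biUnion_insert]
    exact h.union (hf q) ih

/-- completeness for a sub-sigma-algebra -/
lemma complete_dd {μ : Measure X} [IsProbabilityMeasure μ] {M : Set X → Prop} (hM : SA M) {u : ℕ → Set X} (hu : ∀ i, M (u i))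
    (hC : ∀ ε : ℝ, 0 < ε → ∃ N, ∀ i ≥ N, ∀ j ≥ N, dd μ (u i) (u j) < ε) : 
    ∃ v, M v ∧ ∀ ε : ℝ, 0 < ε → ∀ᶠ i in atTop, dd μ (u i) v < ε := by
  have hCk : ∀ k : ℕ, ∃ N, ∀ i ≥ N, ∀ j ≥ N, dd μ (u i) (u j) < (1/2:ℝ)^k := fun k => hC _ (by positivity)
  choose N hN using hCk
  -- monotone version
  let φ : ℕ → ℕ := fun k => ∑ i ∈ Finset.range (k+1), N i
  have hφN : ∀ k, N k ≤ φ k := fun k => Finset.single_le_sum (f := N) (fun i _ => Nat.zero_le _) (Finset.mem_range.mpr (Nat.lt_succ_self k))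
  have hφs : ∀ k, φ k ≤ φ (k+1) := fun k => by
    simp only [φ]
    rw [Finset.sum_range_succ _ (k+1)]
    exact Nat.le_add_right _ _
  set w : ℕ → Set X := fun k => u (φ k) with hw
  have hw1 : ∀ k, dd μ (w k) (w (k+1)) < (1/2:ℝ)^k := fun k => hN k _ (hφN k) _ ((hφN k).trans (hφs k))
  set v : Set X := ⋂ n, ⋃ k, w (n + k) with hv
  have hvm : M v := hM.iInter _ fun n => hM.iUnion _ fun k => hu _
  have hsub : ∀ n, (w n) ∆ v ⊆ ⋃ k, (w (n+k)) ∆ (w (n+k+1)) := by
    intro n x hx
    by_contra hcon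
    simp only [mem_iUnion, not_exists, mem_symmDiff, not_or, not_and, not_not] at hcon
    have hconst : ∀ k, x ∈ w (n+k) ↔ x ∈ w n := by
      intro k
      induction k with
      | zero => simp
      | succ k ih =>
        rw [← ih]
        exact ⟨(hcon k).2, (hcon k).1⟩
    have hlim : x ∈ v ↔ x ∈ w n := by
      rw [hv, mem_iInter]
      constructor
      · intro h
        obtain ⟨k, hk⟩ := mem_iUnion.mp (h n)
        exact (hconst k).mp hk
      · intro h m
        rw [mem_iUnion]
        refine ⟨n, ?_⟩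
        have : m + n = n + m := add_comm _ _
        rw [this]
        exact (hconst m).mpr h
    rcases hx with ⟨h1, h2⟩ | ⟨h1, h2⟩
    · exact h2 (hlim.mpr h1)
    · exact h2 (hlim.mp h1)
  have hbd : ∀ n, dd μ (w n) v ≤ 2 * (1/2:ℝ)^n := by
    intro n
    have hsum : HasSum (fun k : ℕ => (1/2:ℝ)^(n+k)) (2 * (1/2:ℝ)^n) := by
      have := (hasSum_geometric_two).mul_left ((1/2:ℝ)^n)
      simp only [pow_add]
      rw [mul_comm 2]
      exact this
    have h1 : μ ((w n) ∆ v) ≤ ENNReal.ofReal (2 * (1/2:ℝ)^n) := by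
      calc μ ((w n) ∆ v) ≤ μ (⋃ k, (w (n+k)) ∆ (w (n+k+1))) := measure_mono (hsub n)
        _ ≤ ∑' k, μ ((w (n+k)) ∆ (w (n+k+1))) := measure_iUnion_le _
        _ ≤ ∑' k, ENNReal.ofReal ((1/2:ℝ)^(n+k)) := by
            apply ENNReal.tsum_le_tsum
            intro k
            have := hw1 (n+k)
            rw [dd_eq_toReal] at this
            exact ((ENNReal.lt_ofReal_iff_toReal_lt (measure_ne_top _ _)).mpr this).le
        _ = ENNReal.ofReal (2 * (1/2:ℝ)^n) := by
            rw [← ENNReal.ofReal_tsum_of_nonneg (fun k => by positivity) hsum.summable, hsum.tsum_eq]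
    rw [dd_eq_toReal]
    exact ENNReal.toReal_le_of_le_ofReal (by positivity) h1
  refine ⟨v, hvm, ?_⟩
  intro ε hε
  have ht : Tendsto (fun k : ℕ => 3 * (1/2:ℝ)^k) atTop (𝓝 0) := by
    have := (tendsto_pow_atTop_nhds_zero_of_lt_one (r := (1/2:ℝ)) (by norm_num) (by norm_num)).const_mul 3
    simpa using this
  obtain ⟨k, hk⟩ := (ht.eventually_lt_const hε).exists
  filter_upwards [eventually_ge_atTop (φ k)] with i hi
  have h1 := hN k i ((hφN k).trans hi) (φ k) (hφN k)
  have h2 := hbd k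
  have h3 := dd_triangle (μ := μ) (u i) (u (φ k)) v
  linarith

lemma dd_biUnion {μ : Measure X} [IsProbabilityMeasure μ] (q : ℕ) (P Q : ℕ → Set X) : 
    dd μ (⋃ j ∈ Finset.range q, P j) (⋃ j ∈ Finset.range q, Q j) ≤ ∑ j ∈ Finset.range q, dd μ (P j) (Q j) := by
  induction q with
  | zero => simp [dd_self]
  | succ q ih =>
    have e : ∀ R : ℕ → Set X, (⋃ j ∈ Finset.range (q+1), R j) = (⋃ j ∈ Finset.range q, R j) ∪ R q := by
      intro R
      rw [Finset.range_add_one, Finset.set_biUnion_insert, union_comm]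
    rw [e, e, Finset.sum_range_succ]
    have := dd_union (μ := μ) (⋃ j ∈ Finset.range q, P j) (P q) (⋃ j ∈ Finset.range q, Q j) (Q q)
    linarith

end Pool.Agent.Lib.MP_5d8c24_an
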