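import Mathlib
import Pool.Agent.Lib.MP_5d8c24_an.Generic

set_option linter.style.longLine false
set_option linter.unusedVariables false
set_option linter.unusedSectionVars false

open MeasureTheory Set Filter Topology
open scoped ENNReal symmDiff

namespace Pool.Agent.Lib.MP_5d8c24_an

variable {X : Type*} [mX : MeasurableSpace X] {μ : Measure X} [IsProbabilityMeasure μ] {A : ℕ → Set X} {T : Aut μ}

lemma iter_add_preimage (T : X → X) (a b : ℕ) (B : Set X) : T^[a + b] ⁻¹' B = T^[b] ⁻¹' (T^[a] ⁻¹' B) := by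
  rw [Function.iterate_add, preimage_comp]

/-- mixing at some time for all measurable sets -/
lemma Gen.mix_set (hA : ∀ m, MeasurableSet (A m)) 
    (hAd : ∀ B, MeasurableSet B → ∀ ε : ℝ, 0 < ε → ∃ m, dd μ B (A m) < ε) (hG : Gen μ A T) 
    {s : Set X} (hs : MeasurableSet s) {ε : ℝ} (hε : 0 < ε) : ∃ n, |μ.real (T.1^[n] ⁻¹' s ∩ s) - μ.real s * μ.real s| < ε := by
  obtain ⟨m, hm⟩ := hAd s hs (ε / 5) (by positivity)
  obtain ⟨l, hl⟩ := exists_nat_gt (5 / ε)
  obtain ⟨n, hn⟩ := hG.mix (m+1) l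
  have h1 := hn m (Nat.lt_succ_self m) m (Nat.lt_succ_self m)
  refine ⟨n, ?_⟩
  have hl' : 1 / ((l:ℝ) + 1) < ε / 5 := by
    rw [div_lt_iff₀ hε] at hl
    rw [div_lt_iff₀ (by positivity)]
    nlinarith
  have h2 := abs_measure_sub_le (μ := μ) (T.1^[n] ⁻¹' s ∩ s) (T.1^[n] ⁻¹' (A m) ∩ A m)
  have h3 := dd_inter (μ := μ) (T.1^[n] ⁻¹' s) s (T.1^[n] ⁻¹' (A m)) (A m)
  rw [dd_preimage (T.mp_iter n) hs (hA m)] at h3
  have h4 := abs_measure_sub_le (μ := μ) s (A m)
  have h6 : μ.real s ≤ 1 := measureReal_le_one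
  have h7 : μ.real (A m) ≤ 1 := measureReal_le_one
  have h6' : 0 ≤ μ.real s := measureReal_nonneg
  have h7' : 0 ≤ μ.real (A m) := measureReal_nonneg
  have h8 : |μ.real (A m) * μ.real (A m) - μ.real s * μ.real s| ≤ 2 * dd μ s (A m) := by
    rw [abs_le] at h4 ⊢
    constructor <;> nlinarith
  have h9 := abs_sub_le (μ.real (T.1^[n] ⁻¹' s ∩ s)) (μ.real (T.1^[n] ⁻¹' (A m) ∩ A m)) (μ.real s * μ.real s)
  have h10 := abs_sub_le (μ.real (T.1^[n] ⁻¹' (A m) ∩ A m)) (μ.real (A m) * μ.real (A m)) (μ.real s * μ.real s)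
  linarith

/-- invariance of a family of sets -/
def Invt (T : Aut μ) (M : Set X → Prop) : Prop := ∀ s, M s → 
  (∃ t, M t ∧ dd μ (T.1 ⁻¹' s) t = 0) ∧ (∃ t, M t ∧ dd μ (T.1.symm ⁻¹' s) t = 0)

lemma Invt.iter {M : Set X → Prop} (hM : SA M) (hI : Invt T M) (n : ℕ) : ∀ s, M s → ∃ t, M t ∧ dd μ (T.1^[n] ⁻¹' s) t = 0 := by
  induction n with
  | zero => intro s hs; exact ⟨s, hs, by simp [dd_self]⟩
  | succ n ih =>
    intro s hs
    obtain ⟨t, ht, h1⟩ := ih s hs
    obtain ⟨t', ht', h2⟩ := (hI t ht).1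
    refine ⟨t', ht', ?_⟩
    rw [iter_add_preimage, Function.iterate_one]
    have h3 := dd_triangle (μ := μ) (T.1 ⁻¹' (T.1^[n] ⁻¹' s)) (T.1 ⁻¹' t) t'
    rw [dd_preimage T.mp ((T.mp_iter n).measurable (hM.meas s hs)) (hM.meas t ht), h1, h2] at h3
    exact le_antisymm (by linarith) (dd_nonneg _ _)

lemma small_sets (hA : ∀ m, MeasurableSet (A m)) 
    (hAd : ∀ B, MeasurableSet B → ∀ ε : ℝ, 0 < ε → ∃ m, dd μ B (A m) < ε) (hG : Gen μ A T) 
    {M : Set X → Prop} (hM : SA M) (hI : Invt T M) {s0 : Set X} (hs0 : M s0) (h0 : 0 < μ.real s0) (h1 : μ.real s0 < 1) 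
    {ε : ℝ} (hε : 0 < ε) : ∃ s, M s ∧ 0 < μ.real s ∧ μ.real s < ε := by
  set r := μ.real s0 with hr
  have key : ∀ n : ℕ, ∃ s, M s ∧ 0 < μ.real s ∧ μ.real s ≤ r ∧ μ.real s ≤ ((1 + r) / 2) ^ n := by
    intro n
    induction n with
    | zero => exact ⟨s0, hs0, h0, le_rfl, by simp [hr, measureReal_le_one]⟩
    | succ n ih =>
      obtain ⟨s, hs, h2, h3, h4⟩ := ih
      set a := μ.real s with ha
      have hε' : 0 < min (a ^ 2) (a * (1 - a) / 2) := by
        apply lt_min (by positivity)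
        have : 0 < 1 - a := by linarith
        positivity
      obtain ⟨k, hk⟩ := hG.mix_set hA hAd (hM.meas s hs) hε'
      obtain ⟨t, ht, h5⟩ := hI.iter hM k s hs
      refine ⟨t ∩ s, hM.inter ht hs, ?_⟩
      have h6 : μ.real (t ∩ s) = μ.real (T.1^[k] ⁻¹' s ∩ s) := by
        have h7 := dd_inter (μ := μ) (T.1^[k] ⁻¹' s) s t s
        rw [h5, dd_self] at h7
        have h8 := abs_measure_sub_le (μ := μ) (T.1^[k] ⁻¹' s ∩ s) (t ∩ s)
        have h9 : |μ.real (T.1^[k] ⁻¹' s ∩ s) - μ.real (t ∩ s)| ≤ 0 := by linarith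
        have := abs_nonpos_iff.mp h9
        linarith
      rw [h6]
      rw [← ha, abs_lt] at hk
      have hm1 := min_le_left (a ^ 2) (a * (1 - a) / 2)
      have hm2 := min_le_right (a ^ 2) (a * (1 - a) / 2)
      have hub : μ.real (T.1^[k] ⁻¹' s ∩ s) ≤ a * ((1 + a) / 2) := by nlinarith [hk.2]
      refine ⟨by nlinarith [hk.1], ?_, ?_⟩
      · nlinarith
      · calc μ.real (T.1^[k] ⁻¹' s ∩ s) ≤ a * ((1 + a) / 2) := hub
          _ ≤ ((1 + r) / 2) ^ n * ((1 + r) / 2) := by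
              apply mul_le_mul h4 (by linarith) (by positivity) (by positivity)
          _ = _ := (pow_succ _ _).symm
  have hlt : (1 + r) / 2 < 1 := by linarith
  obtain ⟨n, hn⟩ := ((tendsto_pow_atTop_nhds_zero_of_lt_one (by positivity) hlt).eventually_lt_const hε).exists
  obtain ⟨s, hs, h2, h3, h4⟩ := key n
  exact ⟨s, hs, h2, lt_of_le_of_lt h4 hn⟩

lemma moves (hA : ∀ m, MeasurableSet (A m)) 
    (hAd : ∀ B, MeasurableSet B → ∀ ε : ℝ, 0 < ε → ∃ m, dd μ B (A m) < ε) (hG : Gen μ A T) 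
    {s : Set X} (hs : MeasurableSet s) (h0 : 0 < μ.real s) (h1 : μ.real s < 1) : 0 < dd μ (T.1 ⁻¹' s) s := by
  by_contra hcon
  have hz : dd μ (T.1 ⁻¹' s) s = 0 := le_antisymm (not_lt.mp hcon) (dd_nonneg _ _)
  have hit : ∀ n : ℕ, dd μ (T.1^[n] ⁻¹' s) s = 0 := by
    intro n
    induction n with
    | zero => simp [dd_self]
    | succ n ih =>
      rw [iter_add_preimage, Function.iterate_one]
      have h3 := dd_triangle (μ := μ) (T.1 ⁻¹' (T.1^[n] ⁻¹' s)) (T.1 ⁻¹' s) s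
      rw [dd_preimage T.mp ((T.mp_iter n).measurable hs) hs, ih, hz] at h3
      exact le_antisymm (by linarith) (dd_nonneg _ _)
  obtain ⟨n, hn⟩ := hG.mix_set hA hAd hs (show 0 < μ.real s * (1 - μ.real s) by
    have : 0 < 1 - μ.real s := by linarith
    positivity)
  have h4 : μ.real (T.1^[n] ⁻¹' s ∩ s) = μ.real s := by
    have h7 := dd_inter (μ := μ) (T.1^[n] ⁻¹' s) s s s
    rw [hit, dd_self, inter_self] at h7
    have h8 := abs_measure_sub_le (μ := μ) (T.1^[n] ⁻¹' s ∩ s) s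
    have h9 : |μ.real (T.1^[n] ⁻¹' s ∩ s) - μ.real s| ≤ 0 := by linarith
    have := abs_nonpos_iff.mp h9
    linarith
  rw [h4, abs_lt] at hn
  linarith [hn.2]

/-- the sequence of times -/
lemma exists_times (hA : ∀ m, MeasurableSet (A m)) (hG : Gen μ A T) (k0 l0 : ℕ) : 
    ∃ (q : ℕ) (n : ℕ → ℕ), 0 < q ∧ n 0 = 1 ∧ 
      (∀ i, ∀ m < k0 + i, dd μ (T.1^[n (i+1)] ⁻¹' (A m)) (T.1^[n i] ⁻¹' (A m)) < 2 * ((1 / ((l0:ℝ) + 1)) * (1/2)^i)) ∧ 
      (∀ i, ∀ m < k0 + i, dd μ (T.1^[n i * q] ⁻¹' (A m)) (A m) < (1 / ((l0:ℝ) + 1)) * (1/2)^i) := by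
  let l : ℕ → ℕ := fun i => (l0 + 1) * 2 ^ i - 1
  have hl : ∀ i, 1 / ((l i : ℝ) + 1) = (1 / ((l0:ℝ) + 1)) * (1/2)^i := by
    intro i
    have h1 : l i + 1 = (l0 + 1) * 2 ^ i := Nat.sub_add_cancel (Nat.one_le_iff_ne_zero.mpr (by positivity))
    have h2 : (l i : ℝ) + 1 = ((l0:ℝ) + 1) * 2 ^ i := by exact_mod_cast h1
    rw [h2, one_div_pow]
    field_simp
  obtain ⟨q, hq, hq2⟩ := hG.rig k0 (l 0)
  let St := fun i : ℕ => {n : ℕ // T ∈ O1 μ A (n * q) (k0 + i) (1 / ((l i : ℝ) + 1))}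
  have hstep : ∀ i (s : St i), ∃ s' : St (i+1), ∀ m < k0 + i, dd μ (T.1^[s'.1] ⁻¹' (A m)) (T.1^[s.1] ⁻¹' (A m)) < 2 * (1 / ((l i : ℝ) + 1)) := by
    intro i s
    obtain ⟨n', h1, h2⟩ := hG.chain s.1 q (k0 + i) (l i) (k0 + (i+1)) (l (i+1)) hq s.2
    exact ⟨⟨n', h2⟩, h1⟩
  choose nxt hnxt using hstep
  let s0 : St 0 := ⟨1, by rw [one_mul]; exact hq2⟩
  let S : (i : ℕ) → St i := fun i => Nat.rec s0 (fun i s => nxt i s) i
  refine ⟨q, fun i => (S i).1, hq, rfl, ?_, ?_⟩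
  · intro i m hm
    have := hnxt i (S i) m hm
    exact lt_of_lt_of_eq this (by rw [hl i])
  · intro i m hm
    have := (S i).2 m hm
    exact lt_of_lt_of_eq this (hl i)



/-- the main soft argument -/
theorem main_soft (hA : ∀ m, MeasurableSet (A m)) 
    (hAd : ∀ B, MeasurableSet B → ∀ ε : ℝ, 0 < ε → ∃ m, dd μ B (A m) < ε) (hG : Gen μ A T) 
    {M : Set X → Prop} (hM : SA M) (hI : Invt T M) (hnt : ∃ s, M s ∧ 0 < μ.real s ∧ μ.real s < 1) : 
    ∃ N : Set X → Prop, SA N ∧ (∀ s, N s → M s) ∧ Invt T N ∧ (∃ s, N s ∧ 0 < μ.real s ∧ μ.real s < 1) ∧ 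
      ∃ s, M s ∧ ∀ t, N t → dd μ s t ≠ 0 := by
  obtain ⟨s0, hs0, hs0p, hs0l⟩ := hnt
  have hη := moves hA hAd hG (hM.meas s0 hs0) hs0p hs0l
  set η := dd μ (T.1 ⁻¹' s0) s0 with hηdef
  obtain ⟨m0, hm0⟩ := hAd s0 (hM.meas s0 hs0) (η / 8) (by positivity)
  obtain ⟨l0, hl0⟩ := exists_nat_gt (32 / η)
  obtain ⟨q, n, hq, hn0, hn1, hn2⟩ := exists_times (T := T) hA hG (m0 + 1) l0
  set c : ℝ := 1 / ((l0:ℝ) + 1) with hc
  have hc0 : 0 < c := by positivity
  have hc1 : 4 * c < η / 8 := by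
    rw [div_lt_iff₀ hη] at hl0
    rw [hc, mul_one_div, div_lt_iff₀ (by positivity)]
    nlinarith
  -- increments
  have hinc : ∀ m a b, a ≤ b → m < m0 + 1 + a → 
      dd μ (T.1^[n b] ⁻¹' (A m)) (T.1^[n a] ⁻¹' (A m)) ≤ 4 * c * ((1/2)^a - (1/2)^b) := by
    intro m a b hab hm
    induction b, hab using Nat.le_induction with
    | base => rw [dd_self]; simp
    | succ b hab ih =>
      have h1 := hn1 b m (by omega)
      have h2 := dd_triangle (μ := μ) (T.1^[n (b+1)] ⁻¹' (A m)) (T.1^[n b] ⁻¹' (A m)) (T.1^[n a] ⁻¹' (A m))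
      have h3 : (1/2:ℝ)^(b+1) = (1/2)^b * (1/2) := pow_succ _ _
      rw [h3]
      nlinarith
  have hpow : ∀ ε : ℝ, 0 < ε → ∀ᶠ a : ℕ in atTop, 4 * c * (1/2)^a < ε := by
    intro ε hε
    have ht : Tendsto (fun k : ℕ => (4 * c) * (1/2:ℝ)^k) atTop (𝓝 0) := by
      have := (tendsto_pow_atTop_nhds_zero_of_lt_one (r := (1/2:ℝ)) (by norm_num) (by norm_num)).const_mul (4 * c)
      simpa using this
    exact ht.eventually_lt_const hε
  have hCauchy : ∀ B, MeasurableSet B → ∀ ε : ℝ, 0 < ε → ∃ N, ∀ i ≥ N, ∀ j ≥ N, dd μ (T.1^[n i] ⁻¹' B) (T.1^[n j] ⁻¹' B) < ε := by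
    intro B hB ε hε
    obtain ⟨m, hm⟩ := hAd B hB (ε / 8) (by positivity)
    obtain ⟨N, hN⟩ := ((hpow (ε / 8) (by positivity)).and (eventually_ge_atTop m)).exists
    have key : ∀ i ≥ N, dd μ (T.1^[n i] ⁻¹' B) (T.1^[n N] ⁻¹' B) < ε / 2 := by
      intro i hi
      have h1 := hinc m N i hi (by omega)
      have h2 : 4 * c * ((1/2)^N - (1/2)^i) ≤ 4 * c * (1/2)^N := by
        have : (0:ℝ) ≤ (1/2)^i := by positivity
        nlinarith
      have h3 := dd_triangle (μ := μ) (T.1^[n i] ⁻¹' B) (T.1^[n i] ⁻¹' (A m)) (T.1^[n N] ⁻¹' B)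
      have h4 := dd_triangle (μ := μ) (T.1^[n i] ⁻¹' (A m)) (T.1^[n N] ⁻¹' (A m)) (T.1^[n N] ⁻¹' B)
      rw [dd_preimage (T.mp_iter _) hB (hA m)] at h3
      rw [dd_preimage (T.mp_iter _) (hA m) hB, dd_comm (A m) B] at h4
      linarith [hN.1]
    refine ⟨N, fun i hi j hj => ?_⟩
    have h5 := dd_triangle (μ := μ) (T.1^[n i] ⁻¹' B) (T.1^[n N] ⁻¹' B) (T.1^[n j] ⁻¹' B)
    rw [dd_comm (T.1^[n N] ⁻¹' B)] at h5
    linarith [key i hi, key j hj]
  have hrigid : ∀ B, MeasurableSet B → ∀ ε : ℝ, 0 < ε → ∀ᶠ i in atTop, dd μ (T.1^[n i * q] ⁻¹' B) B < ε := by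
    intro B hB ε hε
    obtain ⟨m, hm⟩ := hAd B hB (ε / 4) (by positivity)
    filter_upwards [hpow (ε / 2) (by positivity), eventually_ge_atTop m] with i h1 h2
    have h3 := hn2 i m (by omega)
    have h4 := dd_triangle (μ := μ) (T.1^[n i * q] ⁻¹' B) (T.1^[n i * q] ⁻¹' (A m)) B
    have h5 := dd_triangle (μ := μ) (T.1^[n i * q] ⁻¹' (A m)) (A m) B
    rw [dd_preimage (T.mp_iter _) hB (hA m)] at h4
    rw [dd_comm (A m) B] at h5
    have h6 : c * (1/2)^i ≤ 4 * c * (1/2)^i := by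
      have : (0:ℝ) ≤ c * (1/2)^i := by positivity
      linarith
    linarith
  have hlim : ∀ s, M s → ∃ s', M s' ∧ ∀ ε : ℝ, 0 < ε → ∀ᶠ i in atTop, dd μ (T.1^[n i] ⁻¹' s) s' < ε := by
    intro s hs
    have hrep := fun i => hI.iter hM (n i) s hs
    choose t ht ht0 using hrep
    have hclose : ∀ i j, dd μ (t i) (t j) ≤ dd μ (T.1^[n i] ⁻¹' s) (T.1^[n j] ⁻¹' s) := by
      intro i j
      have h1 := dd_triangle (μ := μ) (t i) (T.1^[n i] ⁻¹' s) (t j)
      have h2 := dd_triangle (μ := μ) (T.1^[n i] ⁻¹' s) (T.1^[n j] ⁻¹' s) (t j)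
      rw [dd_comm (t i) (T.1^[n i] ⁻¹' s), ht0] at h1
      rw [ht0] at h2
      linarith
    obtain ⟨v, hv, hv2⟩ := complete_dd hM ht (by
      intro ε hε
      obtain ⟨N, hN⟩ := hCauchy s (hM.meas s hs) ε hε
      exact ⟨N, fun i hi j hj => lt_of_le_of_lt (hclose i j) (hN i hi j hj)⟩)
    refine ⟨v, hv, ?_⟩
    intro ε hε
    filter_upwards [hv2 ε hε] with i hi
    have h1 := dd_triangle (μ := μ) (T.1^[n i] ⁻¹' s) (t i) v
    rw [ht0] at h1
    linarith
  -- the smaller factor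
  set N : Set X → Prop := fun t => M t ∧ ∀ ε : ℝ, 0 < ε → ∀ᶠ i in atTop, dd μ (T.1^[n i] ⁻¹' t) t < ε with hN
  have hNunion : ∀ s t, N s → N t → N (s ∪ t) := by
    intro s t hs ht
    refine ⟨hM.union hs.1 ht.1, ?_⟩
    intro ε hε
    filter_upwards [hs.2 (ε/2) (half_pos hε), ht.2 (ε/2) (half_pos hε)] with i h1 h2
    rw [preimage_union]
    have := dd_union (μ := μ) (T.1^[n i] ⁻¹' s) (T.1^[n i] ⁻¹' t) s t
    linarith
  have hNempty : N ∅ := by
    refine ⟨hM.empty, ?_⟩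
    intro ε hε
    filter_upwards with i
    rw [preimage_empty, dd_self]; exact hε
  have hNSA : SA N := by
    constructor
    · exact hNempty
    · intro s hs
      refine ⟨hM.compl s hs.1, ?_⟩
      intro ε hε
      filter_upwards [hs.2 ε hε] with i hi
      rw [preimage_compl, dd_compl]; exact hi
    · intro f hf
      refine ⟨hM.iUnion f (fun i => (hf i).1), ?_⟩
      intro ε hε
      have hfm : ∀ i, MeasurableSet (f i) := fun i => hM.meas _ (hf i).1
      set U : ℕ → Set X := fun J => ⋃ j ∈ Finset.range J, f j with hU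
      have hUN : ∀ J, N (U J) := by
        intro J
        induction J with
        | zero => simp only [hU, Finset.range_zero]; simpa using hNempty
        | succ J ih =>
          have : U (J+1) = f J ∪ U J := by
            simp only [hU]
            rw [Finset.range_add_one, Finset.set_biUnion_insert]
          rw [this]
          exact hNunion _ _ (hf J) ih
      have hUmono : Monotone U := by
        intro a b hab
        intro x hx
        simp only [hU, mem_iUnion, Finset.mem_range, exists_prop] at hx ⊢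
        obtain ⟨j, hj, hx⟩ := hx
        exact ⟨j, lt_of_lt_of_le hj hab, hx⟩
      have hUall : ⋃ J, U J = ⋃ i, f i := by
        ext x
        simp only [hU, mem_iUnion, Finset.mem_range, exists_prop]
        constructor
        · rintro ⟨J, i, _, hi⟩; exact ⟨i, hi⟩
        · rintro ⟨i, hi⟩; exact ⟨i+1, i, Nat.lt_succ_self i, hi⟩
      have htend := tendsto_measure_iUnion_atTop (μ := μ) hUmono
      rw [hUall] at htend
      have htend2 := (ENNReal.tendsto_toReal (measure_ne_top μ _)).comp htend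
      have hev : ∀ᶠ J in atTop, μ.real (⋃ i, f i) - ε / 4 < μ.real (U J) := 
        htend2.eventually_const_lt (by rw [Measure.real]; linarith)
      obtain ⟨J, hJ⟩ := hev.exists
      have hdd : dd μ (⋃ i, f i) (U J) < ε / 4 := by
        have hsub : U J ⊆ ⋃ i, f i := by rw [← hUall]; exact subset_iUnion U J
        rw [dd, Set.symmDiff_def, sdiff_eq_empty.mpr hsub, union_empty, measureReal_sdiff hsub (hM.meas _ (hUN J).1)]
        linarith
      have hfU : MeasurableSet (⋃ i, f i) := MeasurableSet.iUnion hfm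
      have hUm : MeasurableSet (U J) := hM.meas _ (hUN J).1
      filter_upwards [(hUN J).2 (ε/4) (by positivity)] with i hi
      have h4 := dd_triangle (μ := μ) (T.1^[n i] ⁻¹' (⋃ i, f i)) (T.1^[n i] ⁻¹' (U J)) (⋃ i, f i)
      have h5 := dd_triangle (μ := μ) (T.1^[n i] ⁻¹' (U J)) (U J) (⋃ i, f i)
      rw [dd_preimage (T.mp_iter _) hfU hUm] at h4
      rw [dd_comm (U J) (⋃ i, f i)] at h5
      linarith
    · intro s hs; exact hM.meas s hs.1
  have hTsymm : MeasurePreserving T.1.symm μ μ := T.mp.symm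
  have hcomm : ∀ (k : ℕ) (s : Set X), T.1^[k] ⁻¹' (T.1.symm ⁻¹' s) = T.1.symm ⁻¹' (T.1^[k] ⁻¹' s) := by
    intro k s
    have h1 : Function.Commute T.1.symm (T.1)^[k] := by
      apply Function.Commute.iterate_right
      intro x
      simp
    ext x
    simp only [mem_preimage]
    rw [h1 x]
  have hcomm2 : ∀ (k : ℕ) (s : Set X), T.1^[k] ⁻¹' (T.1 ⁻¹' s) = T.1 ⁻¹' (T.1^[k] ⁻¹' s) := by
    intro k s
    have h1 : Function.Commute T.1 (T.1)^[k] := Function.Commute.self_iterate _ _ |>.symm |>.symm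
    ext x
    simp only [mem_preimage]
    rw [h1 x]
  have hNI : Invt T N := by
    intro s hs
    have hsm := hM.meas s hs.1
    obtain ⟨⟨t, ht, ht0⟩, ⟨t', ht', ht0'⟩⟩ := hI s hs.1
    refine ⟨⟨t, ⟨ht, ?_⟩, ht0⟩, ⟨t', ⟨ht', ?_⟩, ht0'⟩⟩
    · intro ε hε
      filter_upwards [hs.2 ε hε] with i hi
      have htm := hM.meas t ht
      have hTsm : MeasurableSet (T.1 ⁻¹' s) := T.mp.measurable hsm
      have h1 := dd_triangle (μ := μ) (T.1^[n i] ⁻¹' t) (T.1^[n i] ⁻¹' (T.1 ⁻¹' s)) t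
      have h2 := dd_triangle (μ := μ) (T.1^[n i] ⁻¹' (T.1 ⁻¹' s)) (T.1 ⁻¹' s) t
      rw [dd_preimage (T.mp_iter _) htm hTsm, dd_comm t, ht0] at h1
      rw [ht0, hcomm2, dd_preimage T.mp ((T.mp_iter _).measurable hsm) hsm] at h2
      rw [hcomm2] at h1
      linarith
    · intro ε hε
      filter_upwards [hs.2 ε hε] with i hi
      have htm := hM.meas t' ht'
      have hTsm : MeasurableSet (T.1.symm ⁻¹' s) := hTsymm.measurable hsm
      have h1 := dd_triangle (μ := μ) (T.1^[n i] ⁻¹' t') (T.1^[n i] ⁻¹' (T.1.symm ⁻¹' s)) t'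
      have h2 := dd_triangle (μ := μ) (T.1^[n i] ⁻¹' (T.1.symm ⁻¹' s)) (T.1.symm ⁻¹' s) t'
      rw [dd_preimage (T.mp_iter _) htm hTsm, dd_comm t', ht0'] at h1
      rw [ht0', hcomm, dd_preimage hTsymm ((T.mp_iter _).measurable hsm) hsm] at h2
      rw [hcomm] at h1
      linarith
  refine ⟨N, hNSA, fun s hs => hs.1, hNI, ?_, ?_⟩
  · -- nontrivial set in N
    have hq0 : (0:ℝ) < q := by exact_mod_cast hq
    obtain ⟨s, hs, hsp, hsl⟩ := small_sets hA hAd hG hM hI hs0 hs0p hs0l (show (0:ℝ) < 1 / q by positivity)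
    have hlim' : ∀ s, ∃ s', M s → M s' ∧ ∀ ε : ℝ, 0 < ε → ∀ᶠ i in atTop, dd μ (T.1^[n i] ⁻¹' s) s' < ε := by
      intro s
      by_cases h : M s
      · obtain ⟨s', hs'⟩ := hlim s h; exact ⟨s', fun _ => hs'⟩
      · exact ⟨∅, fun h' => absurd h' h⟩
    choose L hL using hlim'
    let σ : ℕ → Set X := fun j => L^[j] s
    have hσ0 : σ 0 = s := rfl
    have hσs : ∀ j, σ (j+1) = L (σ j) := fun j => Function.iterate_succ_apply' L j s
    have hσM : ∀ j, M (σ j) := by
      intro j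
      induction j with
      | zero => exact hs
      | succ j ih => rw [hσs]; exact (hL _ ih).1
    have hσlim : ∀ j, ∀ ε : ℝ, 0 < ε → ∀ᶠ i in atTop, dd μ (T.1^[n i] ⁻¹' (σ j)) (σ (j+1)) < ε := by
      intro j; rw [hσs]; exact (hL _ (hσM j)).2
    have hσpow : ∀ j, ∀ ε : ℝ, 0 < ε → ∀ᶠ i in atTop, dd μ (T.1^[n i * j] ⁻¹' s) (σ j) < ε := by
      intro j
      induction j with
      | zero => 
        intro ε hε
        filter_upwards with i
        simp [σ, dd_self, hε]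
      | succ j ih =>
        intro ε hε
        filter_upwards [ih (ε/2) (half_pos hε), hσlim j (ε/2) (half_pos hε)] with i h1 h2
        have h3 : T.1^[n i * (j+1)] ⁻¹' s = T.1^[n i] ⁻¹' (T.1^[n i * j] ⁻¹' s) := by
          rw [mul_add, mul_one, iter_add_preimage]
        rw [h3]
        have h4 := dd_triangle (μ := μ) (T.1^[n i] ⁻¹' (T.1^[n i * j] ⁻¹' s)) (T.1^[n i] ⁻¹' (σ j)) (σ (j+1))
        rw [dd_preimage (T.mp_iter _) ((T.mp_iter _).measurable (hM.meas s hs)) (hM.meas _ (hσM j))] at h4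
        linarith
    have hσq : dd μ (σ q) s = 0 := by
      apply le_antisymm _ (dd_nonneg _ _)
      apply le_of_forall_pos_lt_add
      intro ε hε
      rw [zero_add]
      obtain ⟨i, h1, h2⟩ := ((hσpow q (ε/2) (half_pos hε)).and (hrigid s (hM.meas s hs) (ε/2) (half_pos hε))).exists
      have h3 := dd_triangle (μ := μ) (σ q) (T.1^[n i * q] ⁻¹' s) s
      rw [dd_comm (σ q) (T.1^[n i * q] ⁻¹' s)] at h3
      linarith
    have hσmeas : ∀ j, μ.real (σ j) = μ.real s := by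
      intro j
      have h1 : |μ.real (σ j) - μ.real s| ≤ 0 := by
        apply le_of_forall_pos_lt_add
        intro ε hε
        rw [zero_add]
        obtain ⟨i, h1⟩ := (hσpow j ε hε).exists
        have h2 := abs_measure_sub_le (μ := μ) (σ j) (T.1^[n i * j] ⁻¹' s)
        rw [dd_comm] at h2
        have h3 : μ.real (T.1^[n i * j] ⁻¹' s) = μ.real s := by
          rw [Measure.real, (T.mp_iter _).measure_preimage (hM.meas s hs).nullMeasurableSet, Measure.real]
        rw [h3] at h2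
        linarith
      have := abs_nonpos_iff.mp h1
      linarith
    set t : Set X := ⋃ j ∈ Finset.range q, σ j with ht
    set t' : Set X := ⋃ j ∈ Finset.range q, σ (j+1) with ht'
    have htM : M t := hM.biUnion q hσM
    have htt' : dd μ t' t = 0 := by
      apply le_antisymm _ (dd_nonneg _ _)
      have h1 : t' ∪ s = t ∪ σ q := by
        ext x
        simp only [ht, ht', mem_union, mem_iUnion, Finset.mem_range, exists_prop]
        constructor
        · rintro (⟨j, hj, hx⟩ | hx)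
          · by_cases h : j + 1 < q
            · left; exact ⟨j+1, h, hx⟩
            · right
              have : j + 1 = q := by omega
              rwa [this] at hx
          · left; exact ⟨0, hq, hx⟩
        · rintro (⟨j, hj, hx⟩ | hx)
          · rcases Nat.eq_zero_or_pos j with h | h
            · right; rw [h] at hx; exact hx
            · left
              refine ⟨j - 1, by omega, ?_⟩
              rwa [Nat.sub_add_cancel h]
          · left
            refine ⟨q - 1, by omega, ?_⟩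
            rwa [Nat.sub_add_cancel hq]
      have h2 : t' ∪ σ q = t' := by
        apply union_eq_self_of_subset_right
        intro x hx
        simp only [ht', mem_iUnion, Finset.mem_range, exists_prop]
        exact ⟨q - 1, by omega, by rwa [Nat.sub_add_cancel hq]⟩
      have h3 : t ∪ s = t := by
        apply union_eq_self_of_subset_right
        intro x hx
        simp only [ht, mem_iUnion, Finset.mem_range, exists_prop]
        exact ⟨0, hq, hx⟩
      have h4 := dd_union (μ := μ) t' (σ q) t' s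
      have h5 := dd_union (μ := μ) t (σ q) t s
      rw [dd_self, hσq, h2, h1] at h4
      rw [dd_self, hσq, h3] at h5
      have h6 := dd_triangle (μ := μ) t' (t ∪ σ q) t
      linarith
    refine ⟨t, ⟨htM, ?_⟩, ?_, ?_⟩
    · intro ε hε
      have hall : ∀ᶠ i in atTop, ∀ j ∈ Finset.range q, dd μ (T.1^[n i] ⁻¹' (σ j)) (σ (j+1)) < ε / (2 * q) := by
        rw [Filter.eventually_all_finset]
        intro j _
        exact hσlim j _ (by positivity)
      filter_upwards [hall] with i hi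
      have h1 : T.1^[n i] ⁻¹' t = ⋃ j ∈ Finset.range q, T.1^[n i] ⁻¹' (σ j) := by
        simp only [ht, preimage_iUnion]
      have h2 : dd μ (T.1^[n i] ⁻¹' t) t' ≤ ε / 2 := by
        rw [h1, ht']
        refine (dd_biUnion q _ _).trans ?_
        calc ∑ j ∈ Finset.range q, dd μ (T.1^[n i] ⁻¹' (σ j)) (σ (j+1)) ≤ ∑ j ∈ Finset.range q, ε / (2 * q) := 
              Finset.sum_le_sum fun j hj => (hi j hj).le
          _ = ε / 2 := by
            rw [Finset.sum_const, Finset.card_range, nsmul_eq_mul]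
            field_simp
      have h3 := dd_triangle (μ := μ) (T.1^[n i] ⁻¹' t) t' t
      linarith
    · have hsub : s ⊆ t := by
        intro x hx
        simp only [ht, mem_iUnion, Finset.mem_range, exists_prop]
        exact ⟨0, hq, hx⟩
      exact lt_of_lt_of_le hsp (measureReal_mono hsub (measure_ne_top _ _))
    · calc μ.real t ≤ ∑ j ∈ Finset.range q, μ.real (σ j) := measureReal_biUnion_finset_le _ _
        _ = q * μ.real s := by
            rw [Finset.sum_congr rfl (fun j _ => hσmeas j), Finset.sum_const, Finset.card_range, nsmul_eq_mul]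
        _ < q * (1 / q) := by gcongr
        _ = 1 := by field_simp
  · -- s0 is not in N
    refine ⟨s0, hs0, ?_⟩
    intro t ht hst
    obtain ⟨i, hi⟩ := (ht.2 (η/4) (by positivity)).exists
    have hs0m := hM.meas s0 hs0
    have htm := hM.meas t ht.1
    have h1 := dd_triangle (μ := μ) (T.1^[n i] ⁻¹' s0) (T.1^[n i] ⁻¹' t) s0
    have h2 := dd_triangle (μ := μ) (T.1^[n i] ⁻¹' t) t s0
    rw [dd_preimage (T.mp_iter _) hs0m htm, hst] at h1
    rw [dd_comm t s0, hst] at h2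
    have h3 := hinc m0 0 i (Nat.zero_le i) (by omega)
    rw [hn0, Function.iterate_one] at h3
    have h4 : 4 * c * ((1/2)^0 - (1/2)^i) ≤ 4 * c := by
      have : (0:ℝ) ≤ (1/2)^i := by positivity
      nlinarith
    have h5 := dd_triangle (μ := μ) (T.1 ⁻¹' s0) (T.1 ⁻¹' (A m0)) s0
    have h6 := dd_triangle (μ := μ) (T.1 ⁻¹' (A m0)) (T.1^[n i] ⁻¹' (A m0)) s0
    have h7 := dd_triangle (μ := μ) (T.1^[n i] ⁻¹' (A m0)) (T.1^[n i] ⁻¹' s0) s0
    rw [dd_preimage T.mp hs0m (hA m0)] at h5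
    rw [dd_comm (T.1 ⁻¹' (A m0)) (T.1^[n i] ⁻¹' (A m0))] at h6
    rw [dd_preimage (T.mp_iter _) (hA m0) hs0m, dd_comm (A m0) s0] at h7
    rw [← hηdef] at h5
    linarith

end Pool.Agent.Lib.MP_5d8c24_an
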