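import Mathlib
import Pool.Agent.Lib.MP_5d8c24_an.Soft

set_option linter.style.longLine false
set_option linter.unusedVariables false
set_option linter.unusedSectionVars false

open MeasureTheory Set Filter Topology
open scoped ENNReal symmDiff

namespace Pool.Agent.Lib.MP_5d8c24_an

theorem main_pred {α : Type} [mα : MeasurableSpace α] [StandardBorelSpace α] (μ : Measure α) [IsProbabilityMeasure μ] [NullSingletonClass μ] :
    ∀ᶠ T : Aut μ in residual (Aut μ), ∀ M : Set α → Prop, SA M → 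
      (∀ s, M s → (∃ t, M t ∧ μ (symmDiff (Set.preimage T.1.toFun s) t) = 0) ∧ (∃ t, M t ∧ μ (symmDiff (Set.preimage T.1.invFun s) t) = 0)) → 
      (∃ s, M s ∧ 0 < μ s ∧ μ s < 1) → 
      ∃ N : Set α → Prop, SA N ∧ (∀ s, N s → M s) ∧ 
        (∀ s, N s → (∃ t, N t ∧ μ (symmDiff (Set.preimage T.1.toFun s) t) = 0) ∧ (∃ t, N t ∧ μ (symmDiff (Set.preimage T.1.invFun s) t) = 0)) ∧ 
        (∃ s, N s ∧ 0 < μ s ∧ μ s < 1) ∧ 
        ∃ s, M s ∧ ∀ t, N t → μ (symmDiff s t) ≠ 0 := by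
  obtain ⟨A, hA, hAd⟩ := exists_dense_seq μ
  filter_upwards [residual_Gen μ hA hAd] with T hG M hSA hinv hnt
  have hz : ∀ s t : Set α, dd μ s t = 0 ↔ μ (symmDiff s t) = 0 := by
    intro s t
    rw [dd_eq_toReal, ENNReal.toReal_eq_zero_iff]
    exact ⟨fun h => h.resolve_right (measure_ne_top _ _), Or.inl⟩
  have hI : Invt T M := by
    intro s hs
    obtain ⟨⟨t, ht, ht0⟩, ⟨t', ht', ht0'⟩⟩ := hinv s hs
    exact ⟨⟨t, ht, (hz _ _).mpr ht0⟩, ⟨t', ht', (hz _ _).mpr ht0'⟩⟩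
  have hr : ∀ s : Set α, (0 < μ.real s ∧ μ.real s < 1) ↔ (0 < μ s ∧ μ s < 1) := by
    intro s
    rw [Measure.real, ENNReal.toReal_pos_iff]
    constructor
    · rintro ⟨⟨h1, h2⟩, h3⟩
      refine ⟨h1, ?_⟩
      rw [← ENNReal.toReal_one] at h3
      exact (ENNReal.toReal_lt_toReal (measure_ne_top _ _) ENNReal.one_ne_top).mp h3
    · rintro ⟨h1, h2⟩
      refine ⟨⟨h1, measure_lt_top _ _⟩, ?_⟩
      rw [← ENNReal.toReal_one]
      exact (ENNReal.toReal_lt_toReal (measure_ne_top _ _) ENNReal.one_ne_top).mpr h2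
  have hnt' : ∃ s, M s ∧ 0 < μ.real s ∧ μ.real s < 1 := by
    obtain ⟨s, hs, h⟩ := hnt
    exact ⟨s, hs, (hr s).mpr h⟩
  obtain ⟨N, hN, hNM, hNI, ⟨s, hs, hs1⟩, ⟨s', hs', hs'1⟩⟩ := main_soft hA hAd hG hSA hI hnt'
  refine ⟨N, hN, hNM, ?_, ⟨s, hs, (hr s).mp hs1⟩, ⟨s', hs', ?_⟩⟩
  · intro u hu
    obtain ⟨⟨t, ht, ht0⟩, ⟨t', ht', ht0'⟩⟩ := hNI u hu
    exact ⟨⟨t, ht, (hz _ _).mp ht0⟩, ⟨t', ht', (hz _ _).mp ht0'⟩⟩
  · intro t ht h0
    exact hs'1 t ht ((hz _ _).mpr h0)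

end Pool.Agent.Lib.MP_5d8c24_an
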